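import Pool.Agent.Lib.MP_be0380_co.Moment

/-!
# The combinatorial core

`V` is the set of classes; `T R v w` says that `v` and `w` are tied once the classes in `R` are
declared small; `Q g h k l` says that `x g + x h` and `x k + x l` are close.
-/

namespace PoolBe0380

open Finset

theorem core {V : Type*} [Fintype V] [DecidableEq V] (hr : 36 ≤ Fintype.card V)
    (T : Finset V → V → V → Prop) (Q : V → V → V → V → Prop)
    (hQ : ∀ g h, ∃ k l, ¬ ((k = g ∧ l = h) ∨ (k = h ∧ l = g)) ∧ Q g h k l)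
    (hQ1 : ∀ g h k l, Q g h k l → Q h g k l)
    (hQ2 : ∀ g h k l, Q g h k l → Q g h l k)
    (hQT : ∀ R g h k l, Q g h k l → (h = l ∨ (h ∈ R ∧ l ∈ R)) → T R g k) :
    ∃ R : Finset V, (#R : ℝ) ≤ 24 * √(Fintype.card V : ℝ) ∧
      ∀ W : Finset V, (∀ v, (∃ w, w ≠ v ∧ T R v w) → v ∈ W) →
        (Fintype.card V : ℝ) ≤ 4 * (#W : ℝ) := by
  classical
  set r : ℝ := (Fintype.card V : ℝ) with hrdef
  have hr36 : (36 : ℝ) ≤ r := by rw [hrdef]; exact_mod_cast hr
  set s : ℝ := √r with hs
  have hs6 : 6 ≤ s := by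
    rw [hs]
    apply Real.le_sqrt_of_sq_le
    norm_num
    exact hr36
  have hss : s * s = r := Real.mul_self_sqrt (by linarith)
  -- the tied vertices
  let tied : Finset V → Finset V := fun R => univ.filter fun v => ∃ w, w ≠ v ∧ T R v w
  have hred : ∀ R : Finset V, r ≤ 4 * (#(tied R) : ℝ) →
      ∀ W : Finset V, (∀ v, (∃ w, w ≠ v ∧ T R v w) → v ∈ W) → r ≤ 4 * (#W : ℝ) := by
    intro R h W hW
    have hsub : tied R ⊆ W := fun v hv => hW v (Finset.mem_filter.mp hv).2
    have := Finset.card_le_card hsub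
    have : (#(tied R) : ℝ) ≤ #W := by exact_mod_cast this
    linarith
  have htm : ∀ R v, (∃ w, w ≠ v ∧ T R v w) → v ∈ tied R := fun R v h =>
    Finset.mem_filter.mpr ⟨Finset.mem_univ _, h⟩
  by_cases h0 : r ≤ 4 * (#(tied ∅) : ℝ)
  · refine ⟨∅, ?_, hred ∅ h0⟩
    rw [Finset.card_empty]
    push_cast
    positivity
  push Not at h0
  set F : Finset V := univ \ tied ∅ with hF
  have hFc : (#F : ℝ) = r - #(tied ∅) := by
    have := Finset.card_sdiff_add_card_eq_card (Finset.subset_univ (tied ∅))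
    rw [Finset.card_univ] at this
    rw [hF, hrdef, ← this]
    push_cast
    ring
  have hFr : 3 * r / 4 < (#F : ℝ) := by rw [hFc]; linarith
  have hFr' : (#F : ℝ) ≤ r := by
    rw [hFc]
    have : (0 : ℝ) ≤ #(tied ∅) := by positivity
    linarith
  have hnt : ∀ v ∈ F, ∀ w, w ≠ v → ¬ T ∅ v w := by
    intro v hv w hw hT
    exact (Finset.mem_sdiff.mp hv).2 (htm ∅ v ⟨w, hw, hT⟩)
  choose k l hkl hQkl using hQ
  -- the relations are not internal
  have hk1 : ∀ g ∈ F, ∀ h ∈ F, k g h ≠ g := by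
    intro g hg h hh e
    have hq := hQkl g h
    have hne := hkl g h
    rw [e] at hq hne
    have hl : l g h ≠ h := fun e' => hne (Or.inl ⟨rfl, e'⟩)
    exact hnt h hh _ hl (hQT ∅ h g (l g h) g (hQ2 _ _ _ _ (hQ1 _ _ _ _ hq)) (Or.inl rfl))
  have hk2 : ∀ g ∈ F, ∀ h ∈ F, k g h ≠ h := by
    intro g hg h hh e
    have hq := hQkl g h
    have hne := hkl g h
    rw [e] at hq hne
    have hl : l g h ≠ g := fun e' => hne (Or.inr ⟨rfl, e'⟩)
    exact hnt g hg _ hl (hQT ∅ g h (l g h) h (hQ2 _ _ _ _ hq) (Or.inl rfl))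
  have hl1 : ∀ g ∈ F, ∀ h ∈ F, l g h ≠ g := by
    intro g hg h hh e
    have hq := hQkl g h
    have hne := hkl g h
    rw [e] at hq hne
    have hl : k g h ≠ h := fun e' => hne (Or.inr ⟨e', rfl⟩)
    exact hnt h hh _ hl (hQT ∅ h g (k g h) g (hQ1 _ _ _ _ hq) (Or.inl rfl))
  have hl2 : ∀ g ∈ F, ∀ h ∈ F, l g h ≠ h := by
    intro g hg h hh e
    have hq := hQkl g h
    have hne := hkl g h
    rw [e] at hq hne
    have hl : k g h ≠ g := fun e' => hne (Or.inl ⟨e', rfl⟩)
    exact hnt g hg _ hl (hQT ∅ g h (k g h) h hq (Or.inl rfl))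
  -- degrees and hubs
  let D : V → V → ℕ := fun g v => #((F.erase g).filter fun h => k g h = v ∨ l g h = v)
  let H : V → Finset V := fun g => univ.filter fun v => s / 6 < (D g v : ℝ)
  have hDsum : ∀ g, ∑ v : V, (D g v : ℝ) ≤ 2 * r := by
    intro g
    have h1 : ∑ v : V, D g v ≤ 2 * #F := by
      calc ∑ v : V, D g v
          ≤ ∑ v : V, (#((F.erase g).filter fun h => k g h = v) +
              #((F.erase g).filter fun h => l g h = v)) := by
            apply Finset.sum_le_sum
            intro v _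
            show #((F.erase g).filter fun h => k g h = v ∨ l g h = v) ≤ _
            rw [Finset.filter_or]
            exact Finset.card_union_le _ _
        _ = #(F.erase g) + #(F.erase g) := by
            rw [Finset.sum_add_distrib]
            congr 1
            · exact (Finset.card_eq_sum_card_fiberwise (f := fun h => k g h) (t := univ)
                (fun _ _ => Finset.mem_coe.mpr (Finset.mem_univ _))).symm
            · exact (Finset.card_eq_sum_card_fiberwise (f := fun h => l g h) (t := univ)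
                (fun _ _ => Finset.mem_coe.mpr (Finset.mem_univ _))).symm
        _ ≤ 2 * #F := by
            have := Finset.card_erase_le (s := F) (a := g)
            omega
    have h2 : ((∑ v : V, D g v : ℕ) : ℝ) ≤ 2 * (#F : ℝ) := by exact_mod_cast h1
    push_cast at h2
    linarith
  have hHc : ∀ g, (#(H g) : ℝ) ≤ 12 * s := by
    intro g
    have h1 : (#(H g) : ℝ) * (s / 6) ≤ ∑ v ∈ H g, (D g v : ℝ) := by
      rw [← nsmul_eq_mul, ← Finset.sum_const]
      apply Finset.sum_le_sum
      intro v hv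
      exact (Finset.mem_filter.mp hv).2.le
    have h2 : ∑ v ∈ H g, (D g v : ℝ) ≤ ∑ v : V, (D g v : ℝ) :=
      Finset.sum_le_sum_of_subset_of_nonneg (Finset.subset_univ _) fun _ _ _ => by positivity
    have h3 := hDsum g
    have h4 : (#(H g) : ℝ) * s ≤ 12 * s * s := by nlinarith
    exact le_of_mul_le_mul_right h4 (by linarith)
  have hFe : ∀ g ∈ F, (#(F.erase g) : ℝ) = #F - 1 := by
    intro g hg
    have h1 := Finset.card_erase_add_one hg
    have : (#F : ℝ) = #(F.erase g) + 1 := by exact_mod_cast h1.symm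
    linarith
  by_cases hheavy : ∃ g ∈ F, (#(F.erase g) : ℝ) ≤
      2 * (#((F.erase g).filter fun h => k g h ∈ H g ∨ l g h ∈ H g) : ℝ)
  · -- the heavy case
    obtain ⟨g, hg, hgh⟩ := hheavy
    refine ⟨insert g (H g), ?_, ?_⟩
    · have h1 := Finset.card_insert_le g (H g)
      have h2 : (#(insert g (H g)) : ℝ) ≤ #(H g) + 1 := by exact_mod_cast h1
      have h3 := hHc g
      linarith
    · apply hred
      have hsub : ((F.erase g).filter fun h => k g h ∈ H g ∨ l g h ∈ H g) ⊆
          tied (insert g (H g)) := by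
        intro h hh
        rw [Finset.mem_filter] at hh
        have hhF : h ∈ F := Finset.mem_of_mem_erase hh.1
        rcases hh.2 with hk | hl
        · apply htm
          refine ⟨l g h, hl2 g hg h hhF, ?_⟩
          exact hQT _ h g (l g h) (k g h) (hQ2 _ _ _ _ (hQ1 _ _ _ _ (hQkl g h)))
            (Or.inr ⟨Finset.mem_insert_self _ _, Finset.mem_insert_of_mem hk⟩)
        · apply htm
          refine ⟨k g h, hk2 g hg h hhF, ?_⟩
          exact hQT _ h g (k g h) (l g h) (hQ1 _ _ _ _ (hQkl g h))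
            (Or.inr ⟨Finset.mem_insert_self _ _, Finset.mem_insert_of_mem hl⟩)
      have h1 := Finset.card_le_card hsub
      have h2 : (#((F.erase g).filter fun h => k g h ∈ H g ∨ l g h ∈ H g) : ℝ) ≤
        #(tied (insert g (H g))) := by exact_mod_cast h1
      have h3 := hFe g hg
      linarith
  · -- the light case
    push Not at hheavy
    let q : ℝ := 6 / s
    have hq0 : 0 < q := by
      show 0 < 6 / s
      positivity
    have hq1 : q ≤ 1 := by
      show 6 / s ≤ 1
      rw [div_le_one (by linarith)]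
      exact hs6
    have hqs : q * s = 6 := by
      show 6 / s * s = 6
      field_simp
    let Lg : V → Finset V := fun g => (F.erase g).filter fun h => ¬ (k g h ∈ H g ∨ l g h ∈ H g)
    have hLc : ∀ g ∈ F, r / 3 ≤ (#(Lg g) : ℝ) := by
      intro g hg
      have h1 := hheavy g hg
      have h2 := Finset.card_filter_add_card_filter_not (s := F.erase g)
        (fun h => k g h ∈ H g ∨ l g h ∈ H g)
      have h3 : (#((F.erase g).filter fun h => k g h ∈ H g ∨ l g h ∈ H g) : ℝ) +
        (#(Lg g) : ℝ) = #(F.erase g) := by exact_mod_cast h2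
      have h4 := hFe g hg
      linarith
    have hmiss : ∀ g ∈ F, (∑ R₁ : Finset V, ∑ R₂ : Finset V, wt q R₁ * wt q R₂ *
        (if ∃ h ∈ Lg g, h ∈ R₁ ∧ l g h ∈ R₂ then (0 : ℝ) else 1)) ≤ 1 / 6 := by
      intro g hg
      have h1 := miss_le q (s / 6) hq0 hq1 (Lg g) (l g) (by
        intro v
        by_cases hv : v ∈ H g
        · have : (Lg g).filter (fun h => l g h = v) = ∅ := by
            apply Finset.filter_eq_empty_iff.mpr
            intro h hh e
            exact (Finset.mem_filter.mp hh).2 (Or.inr (e ▸ hv))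
          rw [this, Finset.card_empty]
          push_cast
          positivity
        · have h2 : ¬ s / 6 < (D g v : ℝ) := fun h =>
            hv (Finset.mem_filter.mpr ⟨Finset.mem_univ _, h⟩)
          push Not at h2
          refine le_trans ?_ h2
          have : #((Lg g).filter fun h => l g h = v) ≤ D g v := by
            apply Finset.card_le_card
            intro h hh
            rw [Finset.mem_filter] at hh ⊢
            exact ⟨(Finset.mem_filter.mp hh.1).1, Or.inr hh.2⟩
          exact_mod_cast this) (by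
        have : s / 6 * q = (q * s) / 6 := by ring
        rw [this, hqs]
        norm_num)
      have h2 := hLc g hg
      have h3 : 12 ≤ (#(Lg g) : ℝ) * q ^ 2 := by
        have : r * q ^ 2 = 36 := by
          rw [← hss]
          calc s * s * q ^ 2 = (q * s) ^ 2 := by ring
            _ = 36 := by rw [hqs]; norm_num
        have hq2 : 0 < q ^ 2 := by positivity
        nlinarith
      set X := (∑ R₁ : Finset V, ∑ R₂ : Finset V, wt q R₁ * wt q R₂ *
        (if ∃ h ∈ Lg g, h ∈ R₁ ∧ l g h ∈ R₂ then (0 : ℝ) else 1)) with hX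
      by_contra hcon
      push Not at hcon
      nlinarith
    -- the average of the cost
    let c : Finset V → Finset V → ℝ := fun R₁ R₂ =>
      ∑ g ∈ F, (if ∃ h ∈ Lg g, h ∈ R₁ ∧ l g h ∈ R₂ then (0 : ℝ) else 1)
    have hc : ∑ R₁ : Finset V, ∑ R₂ : Finset V, wt q R₁ * wt q R₂ * c R₁ R₂ ≤
        #F * (1 / 6) := by
      have e : ∀ R₁ R₂ : Finset V, wt q R₁ * wt q R₂ * c R₁ R₂ = ∑ g ∈ F, wt q R₁ * wt q R₂ *
          (if ∃ h ∈ Lg g, h ∈ R₁ ∧ l g h ∈ R₂ then (0 : ℝ) else 1) := fun R₁ R₂ =>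
        Finset.mul_sum _ _ _
      simp_rw [e]
      have e2 : ∀ R₁ : Finset V, ∑ R₂ : Finset V, ∑ g ∈ F, wt q R₁ * wt q R₂ *
          (if ∃ h ∈ Lg g, h ∈ R₁ ∧ l g h ∈ R₂ then (0 : ℝ) else 1) =
          ∑ g ∈ F, ∑ R₂ : Finset V, wt q R₁ * wt q R₂ *
          (if ∃ h ∈ Lg g, h ∈ R₁ ∧ l g h ∈ R₂ then (0 : ℝ) else 1) := fun R₁ => Finset.sum_comm
      simp_rw [e2]
      rw [Finset.sum_comm]
      calc _ ≤ ∑ g ∈ F, (1 / 6 : ℝ) := Finset.sum_le_sum hmiss
        _ = #F * (1 / 6) := by rw [Finset.sum_const, nsmul_eq_mul]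
    have hsz : ∑ R₁ : Finset V, ∑ R₂ : Finset V, wt q R₁ * wt q R₂ * ((#R₁ : ℝ) + #R₂) =
        12 * s := by
      have e : ∀ R₁ R₂ : Finset V, wt q R₁ * wt q R₂ * ((#R₁ : ℝ) + #R₂) =
          wt q R₁ * (#R₁ : ℝ) * wt q R₂ + wt q R₁ * (wt q R₂ * (#R₂ : ℝ)) := by
        intro R₁ R₂; ring
      simp_rw [e, Finset.sum_add_distrib, ← Finset.mul_sum, sum_wt_one, sum_wt_card,
        ← Finset.sum_mul, sum_wt_card, sum_wt_one]
      have : r * q = 6 * s := by
        rw [← hss]
        calc s * s * q = (q * s) * s := by ring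
          _ = 6 * s := by rw [hqs]
      rw [← hrdef]
      linarith
    have hexist : ∃ R₁ R₂ : Finset V, c R₁ R₂ * 48 * s + ((#R₁ : ℝ) + #R₂) * #F ≤
        20 * s * #F := by
      by_contra hcon
      push Not at hcon
      have h1 : ∑ R₁ : Finset V, ∑ R₂ : Finset V, wt q R₁ * wt q R₂ * (20 * s * #F) ≤
          ∑ R₁ : Finset V, ∑ R₂ : Finset V, wt q R₁ * wt q R₂ *
            (c R₁ R₂ * 48 * s + ((#R₁ : ℝ) + #R₂) * #F) :=
        Finset.sum_le_sum fun R₁ _ => Finset.sum_le_sum fun R₂ _ =>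
          mul_le_mul_of_nonneg_left (hcon R₁ R₂).le
            (mul_nonneg (wt_nonneg hq0.le hq1 _) (wt_nonneg hq0.le hq1 _))
      have h2 : ∑ R₁ : Finset V, ∑ R₂ : Finset V, wt q R₁ * wt q R₂ * (20 * s * #F) =
          20 * s * #F := by
        simp_rw [← Finset.sum_mul, ← Finset.mul_sum, sum_wt_one, mul_one]
        rw [sum_wt_one, one_mul]
      have h3 : ∑ R₁ : Finset V, ∑ R₂ : Finset V, wt q R₁ * wt q R₂ *
            (c R₁ R₂ * 48 * s + ((#R₁ : ℝ) + #R₂) * #F) =
          (∑ R₁ : Finset V, ∑ R₂ : Finset V, wt q R₁ * wt q R₂ * c R₁ R₂) * (48 * s) +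
          (∑ R₁ : Finset V, ∑ R₂ : Finset V, wt q R₁ * wt q R₂ * ((#R₁ : ℝ) + #R₂)) * #F := by
        rw [Finset.sum_mul, Finset.sum_mul, ← Finset.sum_add_distrib]
        apply Finset.sum_congr rfl
        intro R₁ _
        rw [Finset.sum_mul, Finset.sum_mul, ← Finset.sum_add_distrib]
        apply Finset.sum_congr rfl
        intro R₂ _
        ring
      rw [h2, h3, hsz] at h1
      have h4 : (∑ R₁ : Finset V, ∑ R₂ : Finset V, wt q R₁ * wt q R₂ * c R₁ R₂) * (48 * s) ≤
          #F * (1 / 6) * (48 * s) := mul_le_mul_of_nonneg_right hc (by positivity)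
      have h5 : (20 : ℝ) * s * #F ≤ 20 * s * #F := le_refl _
      -- this only gives equality, so compare with a strict inequality
      have h6 : ∑ R₁ : Finset V, ∑ R₂ : Finset V, wt q R₁ * wt q R₂ * (20 * s * #F) <
          ∑ R₁ : Finset V, ∑ R₂ : Finset V, wt q R₁ * wt q R₂ *
            (c R₁ R₂ * 48 * s + ((#R₁ : ℝ) + #R₂) * #F) := by
        by_contra hle
        push Not at hle
        have hnn : ∀ R₁ ∈ (univ : Finset (Finset V)), 0 ≤ ∑ R₂ : Finset V,
            (wt q R₁ * wt q R₂ * (c R₁ R₂ * 48 * s + ((#R₁ : ℝ) + #R₂) * #F) -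
              wt q R₁ * wt q R₂ * (20 * s * #F)) := by
          intro R₁ _
          apply Finset.sum_nonneg
          intro R₂ _
          rw [← mul_sub]
          exact mul_nonneg (mul_nonneg (wt_nonneg hq0.le hq1 _) (wt_nonneg hq0.le hq1 _))
            (by linarith [hcon R₁ R₂])
        have hz : ∑ R₁ : Finset V, ∑ R₂ : Finset V,
            (wt q R₁ * wt q R₂ * (c R₁ R₂ * 48 * s + ((#R₁ : ℝ) + #R₂) * #F) -
              wt q R₁ * wt q R₂ * (20 * s * #F)) = 0 := by
          apply le_antisymm _ (Finset.sum_nonneg hnn)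
          simp_rw [Finset.sum_sub_distrib]
          linarith
        have hz1 := (Finset.sum_eq_zero_iff_of_nonneg hnn).mp hz ∅ (Finset.mem_univ _)
        have hz2 := (Finset.sum_eq_zero_iff_of_nonneg (fun R₂ _ => by
          rw [← mul_sub]
          exact mul_nonneg (mul_nonneg (wt_nonneg hq0.le hq1 _) (wt_nonneg hq0.le hq1 _))
            (by linarith [hcon ∅ R₂]))).mp hz1 ∅ (Finset.mem_univ _)
        rw [← mul_sub] at hz2
        have hq1' : 0 < wt q (∅ : Finset V) ∨ q = 1 := by
          rcases eq_or_lt_of_le hq1 with h | h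
          · exact Or.inr h
          · left
            unfold wt
            have : 0 < 1 - q := by linarith
            positivity
        rcases hq1' with hq' | hq'
        · have := mul_pos (mul_pos hq' hq')
            (by linarith [hcon ∅ ∅] : 0 < c ∅ ∅ * 48 * s + ((#(∅ : Finset V) : ℝ) +
              #(∅ : Finset V)) * #F - 20 * s * #F)
          linarith
        · have hz1' := (Finset.sum_eq_zero_iff_of_nonneg hnn).mp hz univ (Finset.mem_univ _)
          have hz2' := (Finset.sum_eq_zero_iff_of_nonneg (fun R₂ _ => by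
            rw [← mul_sub]
            exact mul_nonneg (mul_nonneg (wt_nonneg hq0.le hq1 _) (wt_nonneg hq0.le hq1 _))
              (by linarith [hcon univ R₂]))).mp hz1' univ (Finset.mem_univ _)
          rw [← mul_sub] at hz2'
          have hw : wt q (univ : Finset V) = 1 := by
            unfold wt
            rw [hq']
            simp
          rw [hw] at hz2'
          have := hcon univ univ
          linarith
      rw [h2, h3, hsz] at h6
      have hFpos : (0 : ℝ) < #F := by linarith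
      nlinarith
    obtain ⟨R₁, R₂, hRR⟩ := hexist
    have hFpos : (0 : ℝ) < #F := by linarith
    have hcn : 0 ≤ c R₁ R₂ := by
      apply Finset.sum_nonneg
      intro g _
      split_ifs <;> norm_num
    have hs0 : 0 < s := by linarith
    refine ⟨R₁ ∪ R₂, ?_, ?_⟩
    · have h1 := Finset.card_union_le R₁ R₂
      have h2 : (#(R₁ ∪ R₂) : ℝ) ≤ #R₁ + #R₂ := by exact_mod_cast h1
      have h3 : ((#R₁ : ℝ) + #R₂) * #F ≤ 20 * s * #F := by
        have : 0 ≤ c R₁ R₂ * 48 * s := by positivity
        linarith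
      have h4 := le_of_mul_le_mul_right h3 hFpos
      linarith
    · apply hred
      have hsub : (F.filter fun g => ∃ h ∈ Lg g, h ∈ R₁ ∧ l g h ∈ R₂) ⊆ tied (R₁ ∪ R₂) := by
        intro g hg
        rw [Finset.mem_filter] at hg
        obtain ⟨hgF, h, hh, hh1, hh2⟩ := hg
        have hhF : h ∈ F := Finset.mem_of_mem_erase (Finset.mem_filter.mp hh).1
        apply htm
        exact ⟨k g h, hk1 g hgF h hhF, hQT _ g h (k g h) (l g h) (hQkl g h)
          (Or.inr ⟨Finset.mem_union_left _ hh1, Finset.mem_union_right _ hh2⟩)⟩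
      have h1 := Finset.card_le_card hsub
      have h2 : (#(F.filter fun g => ∃ h ∈ Lg g, h ∈ R₁ ∧ l g h ∈ R₂) : ℝ) ≤
        #(tied (R₁ ∪ R₂)) := by exact_mod_cast h1
      have h3 : c R₁ R₂ = #(F.filter fun g => ¬ ∃ h ∈ Lg g, h ∈ R₁ ∧ l g h ∈ R₂) := by
        show ∑ g ∈ F, (if ∃ h ∈ Lg g, h ∈ R₁ ∧ l g h ∈ R₂ then (0 : ℝ) else 1) = _
        rw [Finset.card_filter]
        push_cast
        apply Finset.sum_congr rfl
        intro g _
        by_cases h : ∃ h ∈ Lg g, h ∈ R₁ ∧ l g h ∈ R₂
        · rw [if_pos h, if_neg (not_not.mpr h)]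
        · rw [if_neg h, if_pos h]
      have h4 := Finset.card_filter_add_card_filter_not (s := F)
        (fun g => ∃ h ∈ Lg g, h ∈ R₁ ∧ l g h ∈ R₂)
      have h5 : (#(F.filter fun g => ∃ h ∈ Lg g, h ∈ R₁ ∧ l g h ∈ R₂) : ℝ) + c R₁ R₂ = #F := by
        rw [h3]
        exact_mod_cast h4
      have h6 : c R₁ R₂ * 48 * s ≤ 20 * s * #F := by
        have : 0 ≤ ((#R₁ : ℝ) + #R₂) * #F := by positivity
        linarith
      have h7 : c R₁ R₂ * 48 ≤ 20 * #F := by
        by_contra hcon
        push Not at hcon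
        nlinarith
      linarith

end PoolBe0380
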