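import Pool.Agent.Lib.MP_be0380_co.G0

/-!
# (7.1): a law of small entropy that is nearly invariant under `A` bounds `V` from below
-/

namespace Pool.MPbe0380.Gb

open Finset Real

variable {p : ℕ} [Fact p.Prime]

/-- the Fourier transform of a real function -/
noncomputable def ft (g : ZMod p → ℝ) (l : ZMod p) : ℂ := ∑ x, (g x : ℂ) * z x l

theorem sum_normSq_ft_mul (g : ZMod p → ℝ) (a : ZMod p) :
    ∑ l, ((‖ft g l‖ ^ 2 : ℝ) : ℂ) * z a l = p * ∑ x, ((g x * g (x + a) : ℝ) : ℂ) := by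
  have h1 : ∀ l, ((‖ft g l‖ ^ 2 : ℝ) : ℂ) * z a l =
      ∑ x, ∑ y, ((g x * g y : ℝ) : ℂ) * z (x - y + a) l := by
    intro l
    have h2 : ((‖ft g l‖ ^ 2 : ℝ) : ℂ) = ft g l * (starRingEnd ℂ) (ft g l) := by
      rw [Complex.mul_conj, Complex.normSq_eq_norm_sq]
    rw [h2]
    simp only [ft, map_sum, map_mul, Complex.conj_ofReal]
    rw [sum_mul_sum, sum_mul]
    refine sum_congr rfl fun x _ => ?_
    rw [sum_mul]
    refine sum_congr rfl fun y _ => ?_
    rw [z_add, sub_eq_add_neg, z_add, z_neg]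
    push_cast
    ring
  simp only [h1]
  rw [sum_comm]
  have h3 : ∀ x, ∑ l, ∑ y, ((g x * g y : ℝ) : ℂ) * z (x - y + a) l =
      p * ((g x * g (x + a) : ℝ) : ℂ) := by
    intro x
    rw [sum_comm]
    have h4 : ∀ y, ∑ l, ((g x * g y : ℝ) : ℂ) * z (x - y + a) l =
        if y = x + a then (p : ℂ) * ((g x * g y : ℝ) : ℂ) else 0 := by
      intro y
      rw [← mul_sum, sum_z]
      by_cases h : y = x + a
      · rw [if_pos h, if_pos (by rw [h]; abel)]; ring
      · rw [if_neg h, if_neg, mul_zero]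
        intro h5
        apply h
        have : y = (x - y + a) + y := by rw [h5, zero_add]
        rw [this]; abel
    simp only [h4, sum_ite_eq', mem_univ, if_true]
  simp only [h3]
  rw [← mul_sum]

theorem sum_normSq_ft (g : ZMod p → ℝ) : ∑ l, ‖ft g l‖ ^ 2 = p * ∑ x, g x ^ 2 := by
  have h := sum_normSq_ft_mul g 0
  simp only [z_zero, mul_one, add_zero] at h
  have h2 : ((∑ l, ‖ft g l‖ ^ 2 : ℝ) : ℂ) = ((p * ∑ x, g x ^ 2 : ℝ) : ℂ) := by
    push_cast at h ⊢
    rw [h]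
    congr 1
    exact sum_congr rfl fun x _ => by ring
  exact_mod_cast h2

theorem sum_normSq_ft_re (g : ZMod p → ℝ) (a : ZMod p) :
    ∑ l, ‖ft g l‖ ^ 2 * (z a l).re = p * ∑ x, g x * g (x + a) := by
  have h := congrArg Complex.re (sum_normSq_ft_mul g a)
  rw [Complex.re_sum] at h
  simp only [Complex.re_ofReal_mul] at h
  rw [h]
  have h2 : ((p : ℂ) * ∑ x, ((g x * g (x + a) : ℝ) : ℂ)) = ((p * ∑ x, g x * g (x + a) : ℝ) : ℂ) := by
    push_cast; ring
  rw [h2, Complex.ofReal_re]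

/-- (7.1): if the law `P` has entropy at most `H` and affinity at least `1 - η` with its
translates by the elements of `A`, then `V(I) ≥ log p - H/δ - |I| (η + 2 √δ)`. -/
theorem glue_BC {P : ZMod p → ℝ} (hP : IsLaw P) {H : ℝ} (hH0 : 0 < H) (hH : ent P ≤ H)
    {δ η : ℝ} (hδ : 0 < δ) (hδ1 : δ < 1) {A : Finset (ZMod p)}
    (hBC : ∀ a ∈ A, 1 - η ≤ BC P (tau a P)) {I : ZMod p → ℝ} (hI : ∀ a, 0 ≤ I a)
    (hIA : ∀ a, a ∉ A → I a = 0) (hη : η + 2 * √δ ≤ 1) :
    Real.log p - H / δ - (∑ a, I a) * (η + 2 * √δ) ≤ V I := by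
  classical
  set t : ℝ := Real.exp (-(H / δ)) with ht
  have ht0 : 0 < t := Real.exp_pos _
  set q : ZMod p → ℝ := fun x => √(P x) with hq
  set g : ZMod p → ℝ := fun x => if t ≤ P x then √(P x) else 0 with hg
  set r : ZMod p → ℝ := fun x => if t ≤ P x then 0 else √(P x) with hr
  have hq0 : ∀ x, 0 ≤ q x := fun x => Real.sqrt_nonneg _
  have hg0 : ∀ x, 0 ≤ g x := fun x => by simp only [hg]; split_ifs; exacts [Real.sqrt_nonneg _, le_rfl]
  have hr0 : ∀ x, 0 ≤ r x := fun x => by simp only [hr]; split_ifs; exacts [le_rfl, Real.sqrt_nonneg _]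
  have hqgr : ∀ x, q x = g x + r x := fun x => by
    simp only [hq, hg, hr]; split_ifs <;> simp
  have hq2 : ∑ x, q x ^ 2 = 1 := by
    rw [← hP.2]; exact sum_congr rfl fun x _ => Real.sq_sqrt (hP.1 x)
  -- the mass outside
  have hr2 : ∑ x, r x ^ 2 ≤ δ := by
    have h1 : ∀ x, r x ^ 2 * (H / δ) ≤ Real.negMulLog (P x) := by
      intro x
      simp only [hr]
      split_ifs with h
      · rw [zero_pow two_ne_zero, zero_mul]
        exact Real.negMulLog_nonneg (hP.1 x) (hP.le_one x)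
      · rw [Real.sq_sqrt (hP.1 x)]
        rcases (hP.1 x).eq_or_lt with h0 | h0
        · rw [← h0, zero_mul, Real.negMulLog_zero]
        · push Not at h
          have h2 : Real.log (P x) ≤ -(H / δ) := by
            rw [← Real.log_exp (-(H / δ))]
            exact Real.log_le_log h0 h.le
          rw [Real.negMulLog]
          nlinarith
    have h2 : (∑ x, r x ^ 2) * (H / δ) ≤ H := by
      rw [sum_mul]
      exact (sum_le_sum fun x _ => h1 x).trans hH
    have h3 : (∑ x, r x ^ 2) * (H / δ) = (∑ x, r x ^ 2) / δ * H := by ring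
    rw [h3] at h2
    have h4 : (∑ x, r x ^ 2) / δ ≤ 1 := by
      by_contra h
      push Not at h
      nlinarith
    rwa [div_le_one hδ] at h4
  have hg2' : ∑ x, g x ^ 2 + ∑ x, r x ^ 2 = 1 := by
    rw [← hq2, ← sum_add_distrib]
    refine sum_congr rfl fun x _ => ?_
    simp only [hq, hg, hr]; split_ifs <;> ring
  set Γ : ℝ := ∑ x, g x ^ 2 with hΓ
  have hr2' : 0 ≤ ∑ x, r x ^ 2 := sum_nonneg fun x _ => sq_nonneg _
  have hΓ1 : Γ ≤ 1 := by linarith
  have hΓ0 : 0 < Γ := by linarith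
  -- the number of points of the support
  set B : Finset (ZMod p) := univ.filter fun x => t ≤ P x with hB
  have hBt : (#B : ℝ) * t ≤ 1 := by
    rw [← hP.2]
    calc (#B : ℝ) * t = ∑ x ∈ B, t := by rw [sum_const, nsmul_eq_mul]
      _ ≤ ∑ x ∈ B, P x := sum_le_sum fun x hx => (mem_filter.mp hx).2
      _ ≤ ∑ x, P x := sum_le_sum_of_subset_of_nonneg (subset_univ _) fun x _ _ => hP.1 x
  have hgB : ∀ x, x ∉ B → g x = 0 := by
    intro x hx
    simp only [hg]
    rw [if_neg]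
    intro h
    exact hx (mem_filter.mpr ⟨mem_univ _, h⟩)
  have hBpos : 0 < #B := by
    rw [card_pos]
    by_contra h
    rw [not_nonempty_iff_eq_empty] at h
    have : Γ = 0 := by
      rw [hΓ]
      refine sum_eq_zero fun x _ => ?_
      rw [hgB x (by rw [h]; exact notMem_empty x), zero_pow two_ne_zero]
    linarith
  have hft : ∀ l, ‖ft g l‖ ^ 2 ≤ #B * Γ := by
    intro l
    have h1 : ‖ft g l‖ ≤ ∑ x ∈ B, g x := by
      rw [ft]
      refine (norm_sum_le _ _).trans ?_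
      have h2 : ∀ x, ‖(g x : ℂ) * z x l‖ = g x := by
        intro x
        rw [norm_mul, norm_z, mul_one, Complex.norm_real, Real.norm_of_nonneg (hg0 x)]
      simp only [h2]
      rw [← sum_subset (subset_univ B) fun x _ hx => hgB x hx]
    have h2 : (∑ x ∈ B, g x) ^ 2 ≤ #B * ∑ x ∈ B, g x ^ 2 := sq_sum_le_card_mul_sum_sq
    have h3 : ∑ x ∈ B, g x ^ 2 ≤ Γ :=
      sum_le_sum_of_subset_of_nonneg (subset_univ _) fun x _ _ => sq_nonneg _
    calc ‖ft g l‖ ^ 2 ≤ (∑ x ∈ B, g x) ^ 2 := pow_le_pow_left₀ (norm_nonneg _) h1 2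
      _ ≤ #B * ∑ x ∈ B, g x ^ 2 := h2
      _ ≤ #B * Γ := mul_le_mul_of_nonneg_left h3 (Nat.cast_nonneg _)
  -- the law
  have hp0 : (0 : ℝ) < p := by exact_mod_cast (Fact.out : p.Prime).pos
  set ν : ZMod p → ℝ := fun l => ‖ft g l‖ ^ 2 / (p * Γ) with hν
  have hpΓ : 0 < (p : ℝ) * Γ := mul_pos hp0 hΓ0
  have hνlaw : IsLaw ν := by
    refine ⟨fun l => by simp only [hν]; positivity, ?_⟩
    simp only [hν]
    rw [← sum_div, sum_normSq_ft, div_self hpΓ.ne']
  have hνle : ∀ l, ν l ≤ #B / p := by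
    intro l
    simp only [hν]
    rw [div_le_div_iff₀ hpΓ hp0]
    nlinarith [hft l]
  have hent : Real.log p - H / δ ≤ ent ν := by
    refine le_trans ?_ (le_ent hνlaw hνle)
    have hB0 : (0 : ℝ) < #B := by exact_mod_cast hBpos
    rw [Real.log_div hB0.ne' hp0.ne']
    have h1 : Real.log #B ≤ H / δ := by
      rw [Real.log_le_iff_le_exp hB0]
      have h2 : (#B : ℝ) ≤ 1 / t := by rw [le_div_iff₀ ht0]; exact hBt
      rw [ht, one_div, ← Real.exp_neg, neg_neg] at h2
      exact h2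
    linarith
  -- the affinities
  have hgg : ∀ a ∈ A, 1 - η - 2 * √δ ≤ ∑ x, g x * g (x + a) := by
    intro a ha
    have h1 : BC P (tau a P) = ∑ x, q x * q (x + a) := by
      rw [BC]
      rw [← Fintype.sum_equiv (Equiv.addRight a) (fun x => q x * q (x + a))
        (fun x => √(P x * tau a P x)) fun x => ?_]
      simp only [hq]
      rw [Equiv.coe_addRight, tau_apply, add_sub_cancel_right, Real.sqrt_mul (hP.1 _), mul_comm]
    have h2 : ∑ x, q x * q (x + a) = ∑ x, g x * g (x + a) + ∑ x, r x * q (x + a) +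
        ∑ x, g x * r (x + a) := by
      rw [← sum_add_distrib, ← sum_add_distrib]
      refine sum_congr rfl fun x _ => ?_
      rw [hqgr x, hqgr (x + a)]; ring
    have hshift : ∀ f : ZMod p → ℝ, ∑ x, f (x + a) ^ 2 = ∑ x, f x ^ 2 := fun f =>
      Fintype.sum_equiv (Equiv.addRight a) _ _ fun _ => rfl
    have h3 : ∑ x, r x * q (x + a) ≤ √δ := by
      have h4 := Real.sum_mul_le_sqrt_mul_sqrt univ r (fun x => q (x + a))
      rw [hshift, hq2, Real.sqrt_one, mul_one] at h4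
      exact h4.trans (Real.sqrt_le_sqrt hr2)
    have h5 : ∑ x, g x * r (x + a) ≤ √δ := by
      have h4 := Real.sum_mul_le_sqrt_mul_sqrt univ g (fun x => r (x + a))
      rw [hshift] at h4
      refine h4.trans ?_
      calc √(∑ x, g x ^ 2) * √(∑ x, r x ^ 2) ≤ 1 * √δ := by
            refine mul_le_mul ?_ (Real.sqrt_le_sqrt hr2) (Real.sqrt_nonneg _) zero_le_one
            exact Real.sqrt_le_one.mpr hΓ1
        _ = √δ := one_mul _
    have h6 := hBC a ha
    rw [h1, h2] at h6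
    linarith
  have hEu : ∀ a ∈ A, ∑ l, ν l * u a l ≤ η + 2 * √δ := by
    intro a ha
    have h1 : ∑ l, ν l * u a l = 1 - (∑ x, g x * g (x + a)) / Γ := by
      have h2 : ∑ l, ν l * (z a l).re = (∑ x, g x * g (x + a)) / Γ := by
        simp only [hν, div_mul_eq_mul_div]
        rw [← sum_div, sum_normSq_ft_re]
        field_simp
      simp only [u, mul_sub, mul_one, sum_sub_distrib]
      rw [hνlaw.2, h2]
    have h3 := hgg a ha
    have h4 : 0 ≤ ∑ x, g x * g (x + a) := sum_nonneg fun x _ => mul_nonneg (hg0 x) (hg0 _)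
    have h5 : ∑ x, g x * g (x + a) ≤ (∑ x, g x * g (x + a)) / Γ := by
      rw [le_div_iff₀ hΓ0]
      nlinarith
    rw [h1]
    linarith
  have hfin := ent_sub_le_V I hνlaw
  have hsum : ∑ a, I a * ∑ l, ν l * u a l ≤ (∑ a, I a) * (η + 2 * √δ) := by
    rw [sum_mul]
    refine sum_le_sum fun a _ => ?_
    by_cases ha : a ∈ A
    · exact mul_le_mul_of_nonneg_left (hEu a ha) (hI a)
    · rw [hIA a ha, zero_mul, zero_mul]
  linarith

/-- (7.1) with relative entropies -/
theorem glue {P : ZMod p → ℝ} (hP : IsLaw P) (hpos : ∀ x, 0 < P x) {H : ℝ} (hH0 : 0 < H)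
    (hH : ent P ≤ H) {δ ε : ℝ} (hδ : 0 < δ) (hδ1 : δ < 1) {A : Finset (ZMod p)}
    (hKL : ∀ a ∈ A, KL (tau a P) P ≤ ε) {I : ZMod p → ℝ} (hI : ∀ a, 0 ≤ I a)
    (hIA : ∀ a, a ∉ A → I a = 0) (hη : ε / 2 + 2 * √δ ≤ 1) :
    Real.log p - H / δ - (∑ a, I a) * (ε / 2 + 2 * √δ) ≤ V I := by
  refine glue_BC hP hH0 hH hδ hδ1 (A := A) ?_ hI hIA hη
  intro a ha
  have h1 := one_sub_BC_le (hP.tau a) hpos
  have h2 := hKL a ha
  rw [BC_comm] at h1
  linarith

end Pool.MPbe0380.Gb
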