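import Pool.Agent.Lib.MP_be0380_co.Law

/-!
# Characters, laws and Gibbs measures on `ZMod p` (MP_be0380)

Definitions and elementary facts used in the sections on Gibbs measures.
-/

namespace Pool.MPbe0380.Gb

open Finset Real

/-! ## Laws on a finite set -/

section laws

variable {ι : Type*} [Fintype ι]

theorem _root_.Pool.MPbe0380.IsLaw.exists_pos {P : ι → ℝ} (hP : IsLaw P) : ∃ x, 0 < P x := by
  by_contra h
  push Not at h
  have : ∑ x, P x ≤ 0 := sum_nonpos fun x _ => h x
  rw [hP.2] at this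
  linarith

/-- Gibbs' inequality: `H(P) ≤ - ∑ P log Q` for a positive `Q` with total mass at most `1`. -/
theorem ent_le {P Q : ι → ℝ} (hP : IsLaw P) (hQ : ∀ x, 0 < Q x) (hQ1 : ∑ x, Q x ≤ 1) :
    ent P ≤ - ∑ x, P x * Real.log (Q x) := by
  have key : ∀ x, Real.negMulLog (P x) + P x * Real.log (Q x) ≤ Q x - P x := by
    intro x
    rcases (hP.1 x).eq_or_lt with h | h
    · rw [← h, Real.negMulLog_zero, zero_mul, add_zero, sub_zero]
      exact (hQ x).le
    · have h1 : Real.log (Q x / P x) ≤ Q x / P x - 1 := Real.log_le_sub_one_of_pos (div_pos (hQ x) h)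
      rw [Real.log_div (hQ x).ne' h.ne'] at h1
      have h2 := mul_le_mul_of_nonneg_left h1 h.le
      have h3 : P x * (Q x / P x - 1) = Q x - P x := by field_simp
      rw [h3] at h2
      rw [Real.negMulLog]
      linarith
  have h1 : ∑ x, (Real.negMulLog (P x) + P x * Real.log (Q x)) ≤ ∑ x, (Q x - P x) :=
    sum_le_sum fun x _ => key x
  rw [sum_add_distrib, sum_sub_distrib, hP.2] at h1
  rw [ent]
  linarith

/-- entropy is at least `log (1 / max)` -/
theorem le_ent {P : ι → ℝ} (hP : IsLaw P) {M : ℝ} (hM : ∀ x, P x ≤ M) : - Real.log M ≤ ent P := by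
  obtain ⟨x₀, hx₀⟩ := hP.exists_pos
  have hM0 : 0 < M := hx₀.trans_le (hM x₀)
  have key : ∀ x, P x * (- Real.log M) ≤ Real.negMulLog (P x) := by
    intro x
    rcases (hP.1 x).eq_or_lt with h | h
    · rw [← h, Real.negMulLog_zero, zero_mul]
    · have h1 : Real.log (P x) ≤ Real.log M := Real.log_le_log h (hM x)
      rw [Real.negMulLog]
      nlinarith
  calc - Real.log M = ∑ x, P x * (- Real.log M) := by rw [← sum_mul, hP.2, one_mul]
    _ ≤ ent P := sum_le_sum fun x _ => key x

/-- `1 - BC ≤ KL / 2` -/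
theorem one_sub_BC_le {P Q : ι → ℝ} (hP : IsLaw P) (hQ : ∀ x, 0 < Q x) :
    1 - BC P Q ≤ KL P Q / 2 := by
  have key : ∀ x, P x - √(P x * Q x) ≤ P x * Real.log (P x / Q x) / 2 := by
    intro x
    rcases (hP.1 x).eq_or_lt with h | h
    · rw [← h]; simp
    · have hr : 0 < Q x / P x := div_pos (hQ x) h
      have h1 : Real.log (√(Q x / P x)) ≤ √(Q x / P x) - 1 :=
        Real.log_le_sub_one_of_pos (Real.sqrt_pos.mpr hr)
      rw [Real.log_sqrt hr.le, ← inv_div (P x) (Q x), Real.log_inv] at h1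
      have h2 : √(P x * Q x) = P x * √((P x / Q x)⁻¹) := by
        rw [inv_div]
        have h3 : P x * Q x = P x ^ 2 * (Q x / P x) := by field_simp
        rw [h3, Real.sqrt_mul (sq_nonneg _), Real.sqrt_sq h.le]
      rw [h2]
      nlinarith
  have h1 : ∑ x, (P x - √(P x * Q x)) ≤ ∑ x, P x * Real.log (P x / Q x) / 2 :=
    sum_le_sum fun x _ => key x
  rw [sum_sub_distrib, hP.2, ← sum_div] at h1
  exact h1

end laws

/-! ## Characters -/

variable {p : ℕ} [Fact p.Prime]

/-- the character `z_a(l)` -/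
noncomputable def z (a l : ZMod p) : ℂ := ZMod.stdAddChar (a * l)

/-- `u_a(l) = 1 - cos θ_a(l)` -/
noncomputable def u (a l : ZMod p) : ℝ := 1 - (z a l).re

/-- `s_a(l) = sin θ_a(l)` -/
noncomputable def s (a l : ZMod p) : ℝ := (z a l).im

/-- `e_a(l) = 1 - z_a(l)` -/
noncomputable def e (a l : ZMod p) : ℂ := 1 - z a l

/-- the representative of `2π a l / p` in `(-π, π]` -/
noncomputable def th (a l : ZMod p) : ℝ := Complex.arg (z a l)

theorem z_add (a b l : ZMod p) : z (a + b) l = z a l * z b l := by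
  rw [z, add_mul, AddChar.map_add_eq_mul]; rfl

theorem z_comm (a l : ZMod p) : z a l = z l a := by rw [z, z, mul_comm]

theorem z_add_right (a l m : ZMod p) : z a (l + m) = z a l * z a m := by
  rw [z_comm, z_add, z_comm l, z_comm m]

theorem norm_z (a l : ZMod p) : ‖z a l‖ = 1 := by
  rw [z]; exact AddChar.norm_apply _ _

theorem z_zero (l : ZMod p) : z 0 l = 1 := by
  rw [z, zero_mul, AddChar.map_zero_eq_one]

theorem z_zero_right (a : ZMod p) : z a 0 = 1 := by rw [z_comm, z_zero]

theorem z_mul_conj (a l : ZMod p) : z a l * (starRingEnd ℂ) (z a l) = 1 := by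
  rw [Complex.mul_conj, Complex.normSq_eq_norm_sq, norm_z]; norm_num

theorem z_neg (a l : ZMod p) : z (-a) l = (starRingEnd ℂ) (z a l) := by
  have h1 : z (-a) l * z a l = 1 := by rw [← z_add, neg_add_cancel, z_zero]
  calc z (-a) l = z (-a) l * (z a l * (starRingEnd ℂ) (z a l)) := by rw [z_mul_conj, mul_one]
    _ = (z (-a) l * z a l) * (starRingEnd ℂ) (z a l) := by ring
    _ = _ := by rw [h1, one_mul]

theorem z_neg_right (a l : ZMod p) : z a (-l) = (starRingEnd ℂ) (z a l) := by
  rw [z_comm, z_neg, z_comm]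

theorem re_sq_add_im_sq (a l : ZMod p) : (z a l).re ^ 2 + (z a l).im ^ 2 = 1 := by
  have h := norm_z a l
  have h2 := Complex.sq_norm (z a l)
  rw [h, Complex.normSq_apply] at h2
  nlinarith

theorem abs_re_le (a l : ZMod p) : |(z a l).re| ≤ 1 := by
  rw [← norm_z a l]; exact Complex.abs_re_le_norm _

theorem u_nonneg (a l : ZMod p) : 0 ≤ u a l := by
  have := (abs_le.mp (abs_re_le a l)).2
  rw [u]; linarith

theorem u_le_two (a l : ZMod p) : u a l ≤ 2 := by
  have := (abs_le.mp (abs_re_le a l)).1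
  rw [u]; linarith

theorem u_zero (l : ZMod p) : u 0 l = 0 := by rw [u, z_zero]; norm_num

theorem u_zero_right (a : ZMod p) : u a 0 = 0 := by rw [u, z_zero_right]; norm_num

theorem s_zero (l : ZMod p) : s 0 l = 0 := by rw [s, z_zero]; norm_num

theorem e_zero (l : ZMod p) : e 0 l = 0 := by rw [e, z_zero, sub_self]

theorem u_neg (a l : ZMod p) : u (-a) l = u a l := by rw [u, u, z_neg, Complex.conj_re]

theorem u_neg_right (a l : ZMod p) : u a (-l) = u a l := by
  rw [u, u, z_neg_right, Complex.conj_re]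

theorem s_neg (a l : ZMod p) : s (-a) l = - s a l := by rw [s, s, z_neg, Complex.conj_im]

theorem s_neg_right (a l : ZMod p) : s a (-l) = - s a l := by
  rw [s, s, z_neg_right, Complex.conj_im]

theorem s_sq (a l : ZMod p) : s a l ^ 2 = 2 * u a l - u a l ^ 2 := by
  have := re_sq_add_im_sq a l
  rw [s, u]; nlinarith

theorem u_sq_le (a l : ZMod p) : u a l ^ 2 ≤ 2 * u a l := by
  nlinarith [u_nonneg a l, u_le_two a l]

theorem s_sq_le (a l : ZMod p) : s a l ^ 2 ≤ 2 * u a l := by
  rw [s_sq]; nlinarith [sq_nonneg (u a l)]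

theorem norm_e_sq (a l : ZMod p) : ‖e a l‖ ^ 2 = 2 * u a l := by
  have h1 := re_sq_add_im_sq a l
  rw [Complex.sq_norm, Complex.normSq_apply, e, u]
  simp only [Complex.sub_re, Complex.one_re, Complex.sub_im, Complex.one_im]
  nlinarith

theorem norm_e (a l : ZMod p) : ‖e a l‖ = √(2 * u a l) := by
  rw [← norm_e_sq, Real.sqrt_sq (norm_nonneg _)]

theorem e_re (a l : ZMod p) : (e a l).re = u a l := by
  rw [e, u, Complex.sub_re, Complex.one_re]

theorem e_im (a l : ZMod p) : (e a l).im = - s a l := by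
  rw [e, s, Complex.sub_im, Complex.one_im, zero_sub]

theorem norm_e_le_two (a l : ZMod p) : ‖e a l‖ ≤ 2 := by
  have h := norm_sub_le (1 : ℂ) (z a l)
  rw [norm_z, norm_one] at h
  rw [e]; linarith

theorem u_le_norm_e (a l : ZMod p) : u a l ≤ ‖e a l‖ := by
  rw [← e_re]; exact Complex.re_le_norm _

theorem abs_s_le_norm_e (a l : ZMod p) : |s a l| ≤ ‖e a l‖ := by
  have := Complex.abs_im_le_norm (e a l)
  rwa [e_im, abs_neg] at this

theorem e_add (a b l : ZMod p) : e (a + b) l = e a l + e b l - e a l * e b l := by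
  rw [e, e, e, z_add]; ring

theorem norm_e_add (a b l : ZMod p) : ‖e (a + b) l‖ ≤ ‖e a l‖ + ‖e b l‖ := by
  have h : e (a + b) l = e a l + z a l * e b l := by rw [e, e, e, z_add]; ring
  rw [h]
  refine (norm_add_le _ _).trans ?_
  rw [norm_mul, norm_z, one_mul]

theorem norm_e_neg (a l : ZMod p) : ‖e (-a) l‖ = ‖e a l‖ := by
  rw [norm_e, norm_e, u_neg]

theorem norm_e_sub (a b l : ZMod p) : ‖e a l - e b l‖ = ‖e (a - b) l‖ := by
  have h : e a l - e b l = - (z b l * (z (a - b) l - 1)) := by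
    have h2 : z a l = z b l * z (a - b) l := by rw [← z_add]; congr 1; ring
    rw [e, e, h2]; ring
  rw [h, norm_neg, norm_mul, norm_z, one_mul, e, norm_sub_rev]

theorem u_add (a b l : ZMod p) :
    u (a + b) l = u a l + u b l - u a l * u b l + s a l * s b l := by
  rw [u, z_add, Complex.mul_re]
  simp only [u, s]
  ring

/-- orthogonality of the characters -/
theorem sum_z (a : ZMod p) : ∑ l, z a l = if a = 0 then (p : ℂ) else 0 := by
  have h := AddChar.sum_mulShift (R := ZMod p) (R' := ℂ) (ψ := ZMod.stdAddChar) a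
    (ZMod.isPrimitive_stdAddChar p)
  have h2 : ∑ l, z a l = ∑ x, ZMod.stdAddChar (N := p) (x * a) := by
    refine sum_congr rfl fun x _ => ?_
    rw [z, mul_comm]
  rw [h2, h, ZMod.card]
  split_ifs <;> simp

/-! ## Gibbs measures -/

/-- the energy `∑ a, I_a u_a(l)` -/
noncomputable def en (I : ZMod p → ℝ) (l : ZMod p) : ℝ := ∑ a, I a * u a l

/-- the partition function -/
noncomputable def Zp (I : ZMod p → ℝ) : ℝ := ∑ l, Real.exp (- en I l)

/-- `V = log Z` -/
noncomputable def V (I : ZMod p → ℝ) : ℝ := Real.log (Zp I)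

/-- the Gibbs measure -/
noncomputable def om (I : ZMod p → ℝ) (l : ZMod p) : ℝ := Real.exp (- en I l) / Zp I

/-- expectation under the Gibbs measure -/
noncomputable def Ex (I f : ZMod p → ℝ) : ℝ := ∑ l, om I l * f l

theorem Zp_pos (I : ZMod p → ℝ) : 0 < Zp I :=
  sum_pos (fun _ _ => Real.exp_pos _) univ_nonempty

theorem om_pos (I : ZMod p → ℝ) (l : ZMod p) : 0 < om I l := div_pos (Real.exp_pos _) (Zp_pos I)

theorem isLaw_om (I : ZMod p → ℝ) : IsLaw (om I) := by
  refine ⟨fun l => (om_pos I l).le, ?_⟩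
  simp only [om]
  rw [← sum_div]
  exact div_self (Zp_pos I).ne'

theorem en_zero_right (I : ZMod p → ℝ) : en I 0 = 0 := by
  simp only [en, u_zero_right, mul_zero, sum_const_zero]

theorem one_le_Zp (I : ZMod p → ℝ) : 1 ≤ Zp I := by
  have h : Real.exp (- en I 0) = 1 := by rw [en_zero_right, neg_zero, Real.exp_zero]
  rw [← h]
  exact single_le_sum (f := fun l => Real.exp (- en I l)) (fun l _ => (Real.exp_pos _).le)
    (mem_univ 0)

theorem V_nonneg (I : ZMod p → ℝ) : 0 ≤ V I := Real.log_nonneg (one_le_Zp I)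

theorem V_zero : V (0 : ZMod p → ℝ) = Real.log p := by
  have h : Zp (0 : ZMod p → ℝ) = p := by
    simp only [Zp, en, Pi.zero_apply, zero_mul, sum_const_zero, neg_zero, Real.exp_zero, sum_const,
      card_univ, ZMod.card, nsmul_eq_mul, mul_one]
  rw [V, h]

/-- `log ω_I(l) = - energy - V` -/
theorem log_om (I : ZMod p → ℝ) (l : ZMod p) : Real.log (om I l) = - en I l - V I := by
  rw [om, Real.log_div (Real.exp_pos _).ne' (Zp_pos I).ne', Real.log_exp, V]

/-- the variational inequality `V(I) ≥ H(ν) - ∑ I_a E_ν u_a` -/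
theorem ent_sub_le_V (I : ZMod p → ℝ) {ν : ZMod p → ℝ} (hν : IsLaw ν) :
    ent ν - ∑ a, I a * ∑ l, ν l * u a l ≤ V I := by
  have h := ent_le hν (om_pos I) (isLaw_om I).2.le
  have h1 : ∑ x, ν x * Real.log (om I x) = - ∑ x, ν x * en I x - V I := by
    simp only [log_om, mul_sub, mul_neg, sum_sub_distrib, sum_neg_distrib]
    rw [← sum_mul, hν.2, one_mul]
  have h2 : ∑ x, ν x * en I x = ∑ a, I a * ∑ l, ν l * u a l := by
    simp only [en, mul_sum]
    rw [sum_comm]
    refine sum_congr rfl fun a _ => sum_congr rfl fun l _ => by ring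
  rw [h1, h2] at h
  linarith

/-- `H(ω_I) = V(I) + ∑ I_a E_I u_a` -/
theorem ent_om (I : ZMod p → ℝ) : ent (om I) = V I + ∑ a, I a * Ex I (u a) := by
  have h1 : ent (om I) = - ∑ l, om I l * Real.log (om I l) := by
    rw [ent, ← sum_neg_distrib]
    refine sum_congr rfl fun l _ => ?_
    rw [Real.negMulLog]; ring
  have h2 : ∑ x, om I x * en I x = ∑ a, I a * Ex I (u a) := by
    simp only [en, mul_sum, Ex]
    rw [sum_comm]
    refine sum_congr rfl fun a _ => sum_congr rfl fun l _ => by ring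
  rw [h1]
  simp only [log_om, mul_sub, mul_neg, sum_sub_distrib, sum_neg_distrib]
  rw [← sum_mul, (isLaw_om I).2, h2]
  ring

end Pool.MPbe0380.Gb
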