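import Mathlib

/-!
# Merging tied vertices

If every vertex of `Vt` is tied to some other vertex, there is a map `σ` moving vertices only
along ties whose image has at most `|V| - |Vt| / 2` elements (Ore's argument on dominating sets).
-/

namespace PoolBe0380

open Finset

theorem exists_merge {V : Type*} [Fintype V] [DecidableEq V] (T : V → V → Prop)
    (hsymm : ∀ v w, T v w → T w v) (Vt : Finset V)
    (hVt : ∀ v, v ∈ Vt ↔ ∃ w, w ≠ v ∧ T v w) :
    ∃ σ : V → V, (∀ v, σ v = v ∨ T v (σ v)) ∧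
      2 * #(univ.image σ) + #Vt ≤ 2 * Fintype.card V := by
  classical
  let P : Finset V → Prop := fun D => ∀ v ∈ Vt, v ∉ D → ∃ w ∈ D, T v w
  -- a minimal dominating set
  obtain ⟨D, hD, hmin⟩ := Finset.exists_min_image (Vt.powerset.filter P) (fun D => #D)
    ⟨Vt, by
      rw [Finset.mem_filter, Finset.mem_powerset]
      exact ⟨subset_rfl, fun v hv hv' => absurd hv hv'⟩⟩
  rw [Finset.mem_filter, Finset.mem_powerset] at hD
  obtain ⟨hDsub, hDP⟩ := hD
  -- its complement is dominating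
  have hcompl : P (Vt \ D) := by
    intro v hv hvn
    have hvD : v ∈ D := by
      by_contra h
      exact hvn (Finset.mem_sdiff.mpr ⟨hv, h⟩)
    by_contra hno
    push Not at hno
    obtain ⟨w, hwv, hw⟩ := (hVt v).mp hv
    have hwVt : w ∈ Vt := (hVt w).mpr ⟨v, hwv.symm, hsymm _ _ hw⟩
    have hwD : w ∈ D := by
      by_contra h
      exact hno w (Finset.mem_sdiff.mpr ⟨hwVt, h⟩) hw
    have hPe : P (D.erase v) := by
      intro u hu hun
      by_cases huv : u = v
      · subst huv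
        exact ⟨w, Finset.mem_erase.mpr ⟨hwv, hwD⟩, hw⟩
      · have huD : u ∉ D := fun h => hun (Finset.mem_erase.mpr ⟨huv, h⟩)
        obtain ⟨w', hw'D, hw'⟩ := hDP u hu huD
        have hne : w' ≠ v := by
          rintro rfl
          exact hno u (Finset.mem_sdiff.mpr ⟨hu, huD⟩) (hsymm _ _ hw')
        exact ⟨w', Finset.mem_erase.mpr ⟨hne, hw'D⟩, hw'⟩
    have h1 := hmin (D.erase v) (by
      rw [Finset.mem_filter, Finset.mem_powerset]
      exact ⟨(Finset.erase_subset _ _).trans hDsub, hPe⟩)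
    have h2 := Finset.card_erase_lt_of_mem hvD
    omega
  -- choose the smaller one
  have hE : ∃ E ⊆ Vt, P E ∧ 2 * #E ≤ #Vt := by
    have hc := Finset.card_sdiff_add_card_eq_card hDsub
    by_cases h : 2 * #D ≤ #Vt
    · exact ⟨D, hDsub, hDP, h⟩
    · exact ⟨Vt \ D, Finset.sdiff_subset, hcompl, by omega⟩
  obtain ⟨E, hEsub, hEP, hEc⟩ := hE
  have hch : ∀ v, ∃ w, (v ∈ Vt ∧ v ∉ E → w ∈ E ∧ T v w) ∧ (¬ (v ∈ Vt ∧ v ∉ E) → w = v) := by
    intro v
    by_cases h : v ∈ Vt ∧ v ∉ E
    · obtain ⟨w, hw, hT⟩ := hEP v h.1 h.2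
      exact ⟨w, fun _ => ⟨hw, hT⟩, fun h' => absurd h h'⟩
    · exact ⟨v, fun h' => absurd h' h, fun _ => rfl⟩
  choose σ hσ1 hσ2 using hch
  refine ⟨σ, ?_, ?_⟩
  · intro v
    by_cases h : v ∈ Vt ∧ v ∉ E
    · exact Or.inr (hσ1 v h).2
    · exact Or.inl (hσ2 v h)
  · have hsub : univ.image σ ⊆ E ∪ (univ \ Vt) := by
      intro w hw
      obtain ⟨v, -, rfl⟩ := Finset.mem_image.mp hw
      by_cases h : v ∈ Vt ∧ v ∉ E
      · exact Finset.mem_union_left _ (hσ1 v h).1
      · rw [hσ2 v h]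
        by_cases hv : v ∈ Vt
        · apply Finset.mem_union_left
          by_contra hvE
          exact h ⟨hv, hvE⟩
        · exact Finset.mem_union_right _ (Finset.mem_sdiff.mpr ⟨Finset.mem_univ _, hv⟩)
    have h1 := Finset.card_le_card hsub
    have h2 := Finset.card_union_le E (univ \ Vt)
    have h3 := Finset.card_sdiff_add_card_eq_card (Finset.subset_univ Vt)
    rw [Finset.card_univ] at h3
    omega

end PoolBe0380
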