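import Pool.Agent.Lib.MP_be0380_co.Pair
import Pool.Agent.Lib.MP_be0380_co.Core
import Pool.Agent.Lib.MP_be0380_co.Ore

/-!
# The iteration
-/

namespace PoolBe0380

open Finset

variable {p : ℕ}

theorem log_le_of_not_lt {S : Finset (ZMod p)} {M : ℕ} (hp : 0 < p)
    (h : ¬ M ^ #S < p) : Real.log p ≤ #S * Real.log M := by
  push Not at h
  rw [← Real.log_pow]
  apply Real.log_le_log
  · exact_mod_cast hp
  · exact_mod_cast h

/-- the last step: few classes -/
theorem base_bound [NeZero p] (hprime : p.Prime) (A : Finset (ZMod p)) (hne : A.Nonempty)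
    (hA : NoUniqueSum A) (S : Finset (ZMod p)) (L : ℕ) (κ : ZMod p → ZMod p)
    (hκA : ∀ a ∈ A, κ a ∈ A) (hκ : ∀ a ∈ A, Ctrl S L (a - κ a))
    (hcard : #(A.image κ) ≤ 36) :
    Real.log p ≤ ((#S : ℝ) + 36) * Real.log (16 * ((L : ℝ) + 2)) := by
  classical
  obtain ⟨a₀, ha₀⟩ := hne
  have hcon : ¬ (16 * (L + 2)) ^ #(S ∪ A.image κ) < p := by
    intro hlt
    obtain ⟨x, -, hx⟩ := exists_reps hprime A hA (S ∪ A.image κ) (L + 2) (by omega)
      (fun _ => κ a₀) (by
        intro a ha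
        have e : a - κ a₀ = (a - κ a) + (κ a - κ a₀) := by ring
        rw [e]
        have h1 := (hκ a ha).mono_set (Finset.subset_union_left (s₂ := A.image κ))
        have h2 : Ctrl (S ∪ A.image κ) 1 (κ a) :=
          Ctrl.self (Finset.mem_union_right _ (Finset.mem_image_of_mem κ ha))
        have h3 : Ctrl (S ∪ A.image κ) 1 (κ a₀) :=
          Ctrl.self (Finset.mem_union_right _ (Finset.mem_image_of_mem κ ha₀))
        exact h1.add (h2.sub h3)) hlt
    have hmem : κ a₀ ∈ A.image fun _ => κ a₀ := Finset.mem_image.mpr ⟨a₀, ha₀, rfl⟩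
    obtain ⟨k, hk, l, hl, hne, -⟩ := hx (κ a₀) hmem (κ a₀) hmem
    obtain ⟨_, _, hk⟩ := Finset.mem_image.mp hk
    obtain ⟨_, _, hl⟩ := Finset.mem_image.mp hl
    exact hne (Or.inl ⟨hk.symm, hl.symm⟩)
  have h1 := log_le_of_not_lt (NeZero.pos p) hcon
  have h2 : (#(S ∪ A.image κ) : ℝ) ≤ (#S : ℝ) + 36 := by
    have := Finset.card_union_le S (A.image κ)
    have h3 : #(S ∪ A.image κ) ≤ #S + 36 := by omega
    exact_mod_cast h3
  have h3 : ((16 * (L + 2) : ℕ) : ℝ) = 16 * ((L : ℝ) + 2) := by push_cast; ring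
  rw [h3] at h1
  refine h1.trans (mul_le_mul_of_nonneg_right h2 ?_)
  apply Real.log_nonneg
  have : (0 : ℝ) ≤ L := by positivity
  linarith

/-- the merging step: the number of classes drops by a factor `7 / 8` -/
theorem merge_step [NeZero p] (hprime : p.Prime) (A : Finset (ZMod p))
    (hA : NoUniqueSum A) (S : Finset (ZMod p)) (L : ℕ) (hL : 1 ≤ L) (κ : ZMod p → ZMod p)
    (hκA : ∀ a ∈ A, κ a ∈ A) (hκ : ∀ a ∈ A, Ctrl S L (a - κ a))
    (hcard : 36 ≤ #(A.image κ)) (hlt : (16 * L) ^ #S < p) :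
    ∃ (S' : Finset (ZMod p)) (κ' : ZMod p → ZMod p),
      (#S' : ℝ) ≤ #S + 24 * √(#(A.image κ) : ℝ) ∧
      (∀ a ∈ A, κ' a ∈ A) ∧ (∀ a ∈ A, Ctrl S' (8 * L) (a - κ' a)) ∧
      (#(A.image κ') : ℝ) ≤ 7 / 8 * (#(A.image κ) : ℝ) := by
  classical
  obtain ⟨x, hx, hrel⟩ := exists_reps hprime A hA S L hL κ hκ hlt
  set G := A.image κ with hG
  have hcardV : Fintype.card G = #G := Fintype.card_coe G
  let S₁ : Finset G → Finset (ZMod p) := fun R => S ∪ R.image fun v => x v.1
  obtain ⟨R, hRc, hRW⟩ := core (V := G) (by rw [hcardV]; exact hcard)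
    (fun R v w => Ctrl (S₁ R) (4 * L + 2) (x v.1 - x w.1))
    (fun g h k l => Ctrl S (4 * L) (x g.1 + x h.1 - x k.1 - x l.1))
    (by
      intro g h
      obtain ⟨k, hk, l, hl, hne, hQ⟩ := hrel g.1 g.2 h.1 h.2
      refine ⟨⟨k, hk⟩, ⟨l, hl⟩, ?_, hQ⟩
      rintro (⟨h1, h2⟩ | ⟨h1, h2⟩)
      · exact hne (Or.inl ⟨congrArg Subtype.val h1, congrArg Subtype.val h2⟩)
      · exact hne (Or.inr ⟨congrArg Subtype.val h1, congrArg Subtype.val h2⟩))
    (by
      intro g h k l hQ
      have e : x h.1 + x g.1 - x k.1 - x l.1 = x g.1 + x h.1 - x k.1 - x l.1 := by ring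
      rw [e]; exact hQ)
    (by
      intro g h k l hQ
      have e : x g.1 + x h.1 - x l.1 - x k.1 = x g.1 + x h.1 - x k.1 - x l.1 := by ring
      rw [e]; exact hQ)
    (by
      intro R g h k l hQ hhl
      have hQ' : Ctrl (S₁ R) (4 * L) (x g.1 + x h.1 - x k.1 - x l.1) :=
        hQ.mono_set Finset.subset_union_left
      rcases hhl with rfl | ⟨hh, hl⟩
      · have e : x g.1 - x k.1 = x g.1 + x h.1 - x k.1 - x h.1 := by ring
        rw [e]
        exact hQ'.mono (by omega)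
      · have e : x g.1 - x k.1 = (x g.1 + x h.1 - x k.1 - x l.1) + (x l.1 - x h.1) := by ring
        rw [e]
        have m1 : x h.1 ∈ S₁ R :=
          Finset.mem_union_right _ (Finset.mem_image.mpr ⟨h, hh, rfl⟩)
        have m2 : x l.1 ∈ S₁ R :=
          Finset.mem_union_right _ (Finset.mem_image.mpr ⟨l, hl, rfl⟩)
        exact hQ'.add ((Ctrl.self m2).sub (Ctrl.self m1)))
  let T : G → G → Prop := fun v w => Ctrl (S₁ R) (4 * L + 2) (x v.1 - x w.1)
  let Vt : Finset G := univ.filter fun v => ∃ w, w ≠ v ∧ T v w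
  obtain ⟨σ, hσ, hσc⟩ := exists_merge T (by
    intro v w h
    have h' := Ctrl.neg h
    rw [neg_sub] at h'
    exact h') Vt (by
    intro v
    show v ∈ univ.filter _ ↔ _
    rw [Finset.mem_filter]
    exact ⟨fun h => h.2, fun h => ⟨Finset.mem_univ _, h⟩⟩)
  have hVt := hRW Vt (by
    intro v hv
    exact Finset.mem_filter.mpr ⟨Finset.mem_univ _, hv⟩)
  rw [hcardV] at hVt hRc hσc
  let κ' : ZMod p → ZMod p := fun a => if h : κ a ∈ G then x (σ ⟨κ a, h⟩).1 else a
  have hκ' : ∀ a ∈ A, ∃ h : κ a ∈ G, κ' a = x (σ ⟨κ a, h⟩).1 := by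
    intro a ha
    have h : κ a ∈ G := Finset.mem_image_of_mem κ ha
    refine ⟨h, ?_⟩
    show (if h : κ a ∈ G then x (σ ⟨κ a, h⟩).1 else a) = _
    rw [dif_pos h]
  refine ⟨S₁ R, κ', ?_, ?_, ?_, ?_⟩
  · have h1 : #(S₁ R) ≤ #S + #R :=
      (Finset.card_union_le _ _).trans (Nat.add_le_add_left Finset.card_image_le _)
    have h2 : (#(S₁ R) : ℝ) ≤ #S + #R := by exact_mod_cast h1
    linarith
  · intro a ha
    obtain ⟨h, e⟩ := hκ' a ha
    rw [e]
    exact (hx _ (σ ⟨κ a, h⟩).2).1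
  · intro a ha
    obtain ⟨h, e⟩ := hκ' a ha
    rw [e]
    have h1 : Ctrl (S₁ R) L (a - κ a) := (hκ a ha).mono_set Finset.subset_union_left
    have h2 : Ctrl (S₁ R) L (x (κ a) - κ a) := by
      have := hκ (x (κ a)) (hx _ h).1
      rw [(hx _ h).2] at this
      exact this.mono_set Finset.subset_union_left
    have h3 : Ctrl (S₁ R) (4 * L + 2) (x (κ a) - x (σ ⟨κ a, h⟩).1) := by
      rcases hσ ⟨κ a, h⟩ with h4 | h4
      · rw [h4, sub_self]
        exact Ctrl.zero _ _
      · exact h4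
    have e2 : a - x (σ ⟨κ a, h⟩).1 = (a - κ a) - (x (κ a) - κ a) +
        (x (κ a) - x (σ ⟨κ a, h⟩).1) := by ring
    rw [e2]
    exact ((h1.sub h2).add h3).mono (by omega)
  · have hsub : A.image κ' ⊆ (univ.image σ).image fun v => x v.1 := by
      intro b hb
      obtain ⟨a, ha, rfl⟩ := Finset.mem_image.mp hb
      obtain ⟨h, e⟩ := hκ' a ha
      rw [e]
      exact Finset.mem_image.mpr ⟨σ ⟨κ a, h⟩, Finset.mem_image_of_mem _ (Finset.mem_univ _), rfl⟩
    have h1 : #(A.image κ') ≤ #(univ.image σ) :=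
      (Finset.card_le_card hsub).trans Finset.card_image_le
    have h2 : (#(A.image κ') : ℝ) ≤ #(univ.image σ) := by exact_mod_cast h1
    have h3 : 2 * (#(univ.image σ) : ℝ) + #Vt ≤ 2 * #G := by exact_mod_cast hσc
    linarith

theorem iterate_bound [NeZero p] (hprime : p.Prime) (A : Finset (ZMod p)) (hne : A.Nonempty)
    (hA : NoUniqueSum A) (t : ℕ) :
    ∀ (S : Finset (ZMod p)) (L : ℕ) (κ : ZMod p → ZMod p), 1 ≤ L →
    (∀ a ∈ A, κ a ∈ A) → (∀ a ∈ A, Ctrl S L (a - κ a)) →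
    (#(A.image κ) : ℝ) ≤ 36 * (8 / 7 : ℝ) ^ t →
    Real.log p ≤ ((#S : ℝ) + 400 * √(#(A.image κ) : ℝ) + 36) *
      (Real.log (16 * ((L : ℝ) + 2)) + t * Real.log 8) := by
  have hbase : ∀ (t : ℕ) (S : Finset (ZMod p)) (L : ℕ) (κ : ZMod p → ZMod p),
      (∀ a ∈ A, κ a ∈ A) → (∀ a ∈ A, Ctrl S L (a - κ a)) → #(A.image κ) ≤ 36 →
      Real.log p ≤ ((#S : ℝ) + 400 * √(#(A.image κ) : ℝ) + 36) *
        (Real.log (16 * ((L : ℝ) + 2)) + t * Real.log 8) := by
    intro t S L κ hκA hκ hc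
    have h1 := base_bound hprime A hne hA S L κ hκA hκ hc
    have h2 : 0 ≤ √(#(A.image κ) : ℝ) := Real.sqrt_nonneg _
    have h3 : 0 ≤ (t : ℝ) * Real.log 8 := mul_nonneg (by positivity) (Real.log_nonneg (by norm_num))
    have h4 : 0 ≤ Real.log (16 * ((L : ℝ) + 2)) := by
      apply Real.log_nonneg
      have : (0 : ℝ) ≤ L := by positivity
      linarith
    refine h1.trans (mul_le_mul (by linarith) (by linarith) h4 (by positivity))
  induction t with
  | zero =>
    intro S L κ hL hκA hκ hc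
    apply hbase 0 S L κ hκA hκ
    rw [pow_zero, mul_one] at hc
    exact_mod_cast hc
  | succ t ih =>
    intro S L κ hL hκA hκ hc
    rcases le_or_gt (#(A.image κ)) 36 with h36 | h36
    · exact hbase (t + 1) S L κ hκA hκ h36
    set r : ℝ := (#(A.image κ) : ℝ) with hr
    have hL0 : (1 : ℝ) ≤ L := by exact_mod_cast hL
    have hlog8 : 0 ≤ Real.log 8 := Real.log_nonneg (by norm_num)
    have hlogL : 0 ≤ Real.log (16 * ((L : ℝ) + 2)) := by
      apply Real.log_nonneg
      linarith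
    have hsq : 0 ≤ √r := Real.sqrt_nonneg _
    by_cases hlt : (16 * L) ^ #S < p
    · obtain ⟨S', κ', hS', hκA', hκ', hc'⟩ :=
        merge_step hprime A hA S L hL κ hκA hκ h36.le hlt
      have h1 := ih S' (8 * L) κ' (by omega) hκA' hκ' (by
        calc (#(A.image κ') : ℝ) ≤ 7 / 8 * r := hc'
          _ ≤ 7 / 8 * (36 * (8 / 7 : ℝ) ^ (t + 1)) := by
            apply mul_le_mul_of_nonneg_left hc (by norm_num)
          _ = 36 * (8 / 7 : ℝ) ^ t := by rw [pow_succ]; ring)
      have h2 : √(#(A.image κ') : ℝ) ≤ 94 / 100 * √r := by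
        have e : 94 / 100 * √r = √((94 / 100) ^ 2 * r) := by
          rw [Real.sqrt_mul (by norm_num), Real.sqrt_sq (by norm_num)]
        rw [e]
        apply Real.sqrt_le_sqrt
        have : (0 : ℝ) ≤ r := by positivity
        nlinarith
      have h3 : Real.log (16 * (((8 * L : ℕ) : ℝ) + 2)) ≤
          Real.log (16 * ((L : ℝ) + 2)) + Real.log 8 := by
        rw [← Real.log_mul (by positivity) (by norm_num)]
        apply Real.log_le_log (by positivity)
        push_cast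
        linarith
      have h4 : 0 ≤ Real.log (16 * (((8 * L : ℕ) : ℝ) + 2)) := by
        apply Real.log_nonneg
        have : (0 : ℝ) ≤ ((8 * L : ℕ) : ℝ) := by positivity
        linarith
      have h5 : (0 : ℝ) ≤ t := by positivity
      have h6 : 0 ≤ (t : ℝ) * Real.log 8 := mul_nonneg h5 hlog8
      refine h1.trans (mul_le_mul ?_ ?_ (by linarith) (by positivity))
      · linarith
      · push_cast at h3 ⊢
        linarith
    · have h1 := log_le_of_not_lt (NeZero.pos p) hlt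
      have h2 : Real.log ((16 * L : ℕ) : ℝ) ≤ Real.log (16 * ((L : ℝ) + 2)) := by
        apply Real.log_le_log
        · push_cast
          linarith
        · push_cast
          linarith
      have h3 : 0 ≤ Real.log ((16 * L : ℕ) : ℝ) := by
        apply Real.log_nonneg
        push_cast
        linarith
      have h5 : (0 : ℝ) ≤ ((t + 1 : ℕ) : ℝ) := by positivity
      have h6 : 0 ≤ ((t + 1 : ℕ) : ℝ) * Real.log 8 := mul_nonneg h5 hlog8
      refine h1.trans (mul_le_mul (by linarith) (by linarith) h3 (by positivity))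

/-- every non-empty set without a unique sum satisfies `log p ≤ 8000 √n (1 + log n)` -/
theorem log_le_sqrt_mul_log [NeZero p] (hprime : p.Prime) (A : Finset (ZMod p))
    (hne : A.Nonempty) (hA : NoUniqueSum A) :
    Real.log p ≤ 8000 * √(#A : ℝ) * (1 + Real.log (#A : ℝ)) := by
  classical
  have hn1 : 1 ≤ #A := hne.card_pos
  have hn1' : (1 : ℝ) ≤ (#A : ℝ) := by exact_mod_cast hn1
  set k := Nat.clog 2 #A with hk
  have hk1 : #A ≤ 2 ^ k := Nat.le_pow_clog (by norm_num) _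
  have h := iterate_bound hprime A hne hA (6 * k) ∅ 1 id le_rfl (fun a ha => ha) (by
    intro a _
    rw [id, sub_self]
    exact Ctrl.zero _ _) (by
    rw [Finset.image_id]
    have h1 : (2 : ℝ) ≤ (8 / 7 : ℝ) ^ 6 := by norm_num
    have h2 : (#A : ℝ) ≤ 2 ^ k := by exact_mod_cast hk1
    have h3 : (2 : ℝ) ^ k ≤ ((8 / 7 : ℝ) ^ 6) ^ k := pow_le_pow_left₀ (by norm_num) h1 k
    rw [← pow_mul] at h3
    have h4 : (0 : ℝ) < (8 / 7 : ℝ) ^ (6 * k) := by positivity
    linarith)
  rw [Finset.image_id, Finset.card_empty] at h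
  have hs1 : 1 ≤ √(#A : ℝ) := by
    rw [Real.one_le_sqrt]
    exact hn1'
  have hlog2 : Real.log 2 ≤ 0.6931471808 := Real.log_two_lt_d9.le
  have hlog2' : 0 < Real.log 2 := Real.log_pos (by norm_num)
  have hlog8 : Real.log 8 = 3 * Real.log 2 := by
    have : (8 : ℝ) = 2 ^ 3 := by norm_num
    rw [this, Real.log_pow]
    push_cast
    ring
  have hlog48 : Real.log (16 * (((1 : ℕ) : ℝ) + 2)) ≤ 6 * Real.log 2 := by
    have : (6 : ℝ) * Real.log 2 = Real.log (2 ^ 6) := by
      rw [Real.log_pow]; push_cast; ring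
    rw [this]
    apply Real.log_le_log (by norm_num)
    norm_num
  -- `k log 2 ≤ log n + log 2`
  have hklog : (k : ℝ) * Real.log 2 ≤ Real.log (#A : ℝ) + Real.log 2 := by
    rcases Nat.eq_zero_or_pos k with h0 | h0
    · rw [h0]
      push_cast
      have := Real.log_nonneg hn1'
      linarith
    · have hlt : 2 ^ (k - 1) < #A := by
        have hA1 : 1 < #A := by
          by_contra hcon
          have : #A = 1 := by omega
          rw [this, Nat.clog_one_right] at hk
          omega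
        have := Nat.pow_pred_clog_lt_self (b := 2) (by norm_num) hA1
        rwa [← hk] at this
      have h1 : Real.log ((2 : ℝ) ^ (k - 1)) ≤ Real.log (#A : ℝ) := by
        apply Real.log_le_log (by positivity)
        exact_mod_cast hlt.le
      rw [Real.log_pow] at h1
      have h2 : ((k - 1 : ℕ) : ℝ) = (k : ℝ) - 1 := by
        rw [Nat.cast_sub h0]
        push_cast
        ring
      rw [h2] at h1
      linarith
  have hlogn := Real.log_nonneg hn1'
  refine h.trans ?_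
  have e1 : (((0 : ℕ) : ℝ) + 400 * √(#A : ℝ) + 36) ≤ 436 * √(#A : ℝ) := by
    push_cast
    linarith
  have e2 : Real.log (16 * (((1 : ℕ) : ℝ) + 2)) + ((6 * k : ℕ) : ℝ) * Real.log 8 ≤
      18 * (1 + Real.log (#A : ℝ)) := by
    rw [hlog8]
    push_cast
    have : 6 * (k : ℝ) * (3 * Real.log 2) = 18 * ((k : ℝ) * Real.log 2) := by ring
    rw [this]
    push_cast at hlog48
    nlinarith
  have e3 : 0 ≤ Real.log (16 * (((1 : ℕ) : ℝ) + 2)) + ((6 * k : ℕ) : ℝ) * Real.log 8 := by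
    have h1 : 0 ≤ Real.log (16 * (((1 : ℕ) : ℝ) + 2)) := Real.log_nonneg (by norm_num)
    have h2 : 0 ≤ Real.log 8 := Real.log_nonneg (by norm_num)
    positivity
  calc _ ≤ 436 * √(#A : ℝ) * (18 * (1 + Real.log (#A : ℝ))) :=
        mul_le_mul e1 e2 e3 (by positivity)
    _ ≤ 8000 * √(#A : ℝ) * (1 + Real.log (#A : ℝ)) := by
        have : 0 ≤ √(#A : ℝ) * (1 + Real.log (#A : ℝ)) := by positivity
        nlinarith

end PoolBe0380
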