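import Mathlib

/-!
# Laws on a finite set or a finite abelian group: definitions

`IsLaw P`: `P` is a probability law. `ent` entropy, `KL` relative entropy, `BC` the affinity
`∑ √(P Q)`, `hel` the Hellinger distance `√(1 - BC)`, `tau a P` the translate, `cv P Q` the convolution,
`dl` the point mass at `0`.
-/

set_option autoImplicit false

open Finset

namespace Pool.MPbe0380

section

variable {Ω : Type*} [Fintype Ω]

/-- `P` is a probability law. -/
def IsLaw (P : Ω → ℝ) : Prop := (∀ x, 0 ≤ P x) ∧ ∑ x, P x = 1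

/-- entropy -/
noncomputable def ent (P : Ω → ℝ) : ℝ := ∑ x, Real.negMulLog (P x)

/-- relative entropy (used only for `Q > 0`) -/
noncomputable def KL (P Q : Ω → ℝ) : ℝ := ∑ x, P x * Real.log (P x / Q x)

/-- affinity -/
noncomputable def BC (P Q : Ω → ℝ) : ℝ := ∑ x, √(P x * Q x)

/-- Hellinger distance -/
noncomputable def hel (P Q : Ω → ℝ) : ℝ := √(1 - BC P Q)

theorem IsLaw.nonneg {P : Ω → ℝ} (h : IsLaw P) (x : Ω) : 0 ≤ P x := h.1 x

theorem IsLaw.sum {P : Ω → ℝ} (h : IsLaw P) : ∑ x, P x = 1 := h.2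

theorem IsLaw.le_one {P : Ω → ℝ} (h : IsLaw P) (x : Ω) : P x ≤ 1 := by
  rw [← h.2]
  exact single_le_sum (fun i _ => h.1 i) (mem_univ x)

theorem BC_comm (P Q : Ω → ℝ) : BC P Q = BC Q P := by
  unfold BC
  exact sum_congr rfl fun x _ => by rw [mul_comm]

theorem hel_comm (P Q : Ω → ℝ) : hel P Q = hel Q P := by
  unfold hel
  rw [BC_comm]

theorem BC_self {P : Ω → ℝ} (h : IsLaw P) : BC P P = 1 := by
  unfold BC
  rw [← h.2]
  exact sum_congr rfl fun x _ => Real.sqrt_mul_self (h.1 x)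

theorem hel_self {P : Ω → ℝ} (h : IsLaw P) : hel P P = 0 := by
  unfold hel
  rw [BC_self h]
  simp

theorem hel_nonneg (P Q : Ω → ℝ) : 0 ≤ hel P Q := Real.sqrt_nonneg _

theorem ent_nonneg {P : Ω → ℝ} (h : IsLaw P) : 0 ≤ ent P :=
  sum_nonneg fun x _ => Real.negMulLog_nonneg (h.1 x) (h.le_one x)

theorem KL_self {P : Ω → ℝ} : KL P P = 0 := by
  unfold KL
  apply sum_eq_zero
  intro x _
  by_cases hx : P x = 0
  · rw [hx, zero_mul]
  · rw [div_self hx, Real.log_one, mul_zero]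

end

section

variable {G : Type*} [AddCommGroup G] [Fintype G]

/-- translate -/
def tau (a : G) (P : G → ℝ) : G → ℝ := fun x => P (x - a)

/-- convolution -/
def cv (P Q : G → ℝ) : G → ℝ := fun x => ∑ y, P y * Q (x - y)

/-- point mass at `0` -/
def dl [DecidableEq G] : G → ℝ := fun x => if x = 0 then 1 else 0

theorem sum_tau (a : G) (f : G → ℝ) : ∑ x, tau a f x = ∑ x, f x :=
  Fintype.sum_equiv (Equiv.subRight a) _ _ fun _ => rfl

omit [Fintype G] in
theorem tau_apply (a : G) (P : G → ℝ) (x : G) : tau a P x = P (x - a) := rfl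

omit [Fintype G] in
theorem tau_zero (P : G → ℝ) : tau 0 P = P := by
  funext x
  rw [tau_apply, sub_zero]

omit [Fintype G] in
theorem tau_tau (a b : G) (P : G → ℝ) : tau a (tau b P) = tau (a + b) P := by
  funext x
  rw [tau_apply, tau_apply, tau_apply]
  congr 1
  abel

theorem IsLaw.tau {P : G → ℝ} (h : IsLaw P) (a : G) : IsLaw (tau a P) :=
  ⟨fun x => h.1 _, by rw [sum_tau, h.2]⟩

theorem ent_tau (a : G) (P : G → ℝ) : ent (Pool.MPbe0380.tau a P) = ent P := by
  unfold ent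
  exact Fintype.sum_equiv (Equiv.subRight a) _ _ fun _ => rfl

theorem BC_tau (a : G) (P Q : G → ℝ) :
    BC (Pool.MPbe0380.tau a P) (Pool.MPbe0380.tau a Q) = BC P Q := by
  unfold BC
  exact Fintype.sum_equiv (Equiv.subRight a) _ _ fun _ => rfl

theorem hel_tau (a : G) (P Q : G → ℝ) :
    hel (Pool.MPbe0380.tau a P) (Pool.MPbe0380.tau a Q) = hel P Q := by
  unfold hel
  rw [BC_tau]

theorem KL_tau (a : G) (P Q : G → ℝ) :
    KL (Pool.MPbe0380.tau a P) (Pool.MPbe0380.tau a Q) = KL P Q := by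
  unfold KL
  exact Fintype.sum_equiv (Equiv.subRight a) _ _ fun _ => rfl

theorem cv_comm (P Q : G → ℝ) : cv P Q = cv Q P := by
  funext x
  unfold cv
  refine Fintype.sum_equiv (Equiv.subLeft x) _ _ fun y => ?_
  rw [Equiv.subLeft_apply, sub_sub_cancel, mul_comm]

theorem cv_assoc (P Q R : G → ℝ) : cv (cv P Q) R = cv P (cv Q R) := by
  funext x
  unfold cv
  simp only [sum_mul, mul_sum]
  rw [sum_comm]
  refine sum_congr rfl fun y _ => ?_
  refine Fintype.sum_equiv (Equiv.subRight y) _ _ fun w => ?_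
  rw [Equiv.subRight_apply, mul_assoc]
  congr 3
  abel

theorem cv_dl [DecidableEq G] (P : G → ℝ) : cv P dl = P := by
  funext x
  unfold cv dl
  simp only [mul_ite, mul_one, mul_zero]
  rw [sum_eq_single x]
  · rw [sub_self, if_pos rfl]
  · intro y _ hy
    rw [if_neg]
    intro h
    exact hy (sub_eq_zero.mp h).symm
  · intro h
    exact absurd (mem_univ x) h

theorem dl_cv [DecidableEq G] (P : G → ℝ) : cv dl P = P := by rw [cv_comm, cv_dl]

theorem tau_cv (a : G) (P Q : G → ℝ) :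
    Pool.MPbe0380.tau a (cv P Q) = cv P (Pool.MPbe0380.tau a Q) := by
  funext x
  unfold cv Pool.MPbe0380.tau
  refine sum_congr rfl fun y _ => ?_
  congr 2
  abel

theorem tau_cv' (a : G) (P Q : G → ℝ) :
    Pool.MPbe0380.tau a (cv P Q) = cv (Pool.MPbe0380.tau a P) Q := by
  rw [cv_comm P Q, tau_cv, cv_comm]

theorem sum_cv (P Q : G → ℝ) : ∑ x, cv P Q x = (∑ x, P x) * ∑ x, Q x := by
  unfold cv
  rw [sum_comm, sum_mul]
  refine sum_congr rfl fun y _ => ?_
  rw [← mul_sum]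
  congr 1
  exact Fintype.sum_equiv (Equiv.subRight y) _ _ fun _ => rfl

theorem IsLaw.cv {P Q : G → ℝ} (hP : IsLaw P) (hQ : IsLaw Q) : IsLaw (cv P Q) :=
  ⟨fun x => sum_nonneg fun y _ => mul_nonneg (hP.1 y) (hQ.1 _), by
    rw [sum_cv, hP.2, hQ.2, one_mul]⟩

theorem cv_pos {P Q : G → ℝ} (hP : IsLaw P) (hQ : ∀ x, 0 < Q x) (x : G) :
    0 < Pool.MPbe0380.cv P Q x := by
  unfold Pool.MPbe0380.cv
  obtain ⟨y, hy⟩ : ∃ y, 0 < P y := by
    by_contra h
    push Not at h
    have h0 : ∑ x, P x = 0 := sum_eq_zero fun x _ => le_antisymm (h x) (hP.1 x)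
    rw [hP.2] at h0
    exact one_ne_zero h0
  refine sum_pos' (fun y _ => mul_nonneg (hP.1 y) (hQ _).le) ⟨y, mem_univ y, mul_pos hy (hQ _)⟩

theorem isLaw_dl [DecidableEq G] : IsLaw (dl : G → ℝ) := by
  refine ⟨fun x => ?_, ?_⟩
  · unfold dl
    split_ifs <;> norm_num
  · unfold dl
    simp

end

end Pool.MPbe0380
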