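import Mathlib

/-!
# Random subsets: the second moment estimate
-/

namespace PoolBe0380

open Finset

variable {V : Type*} [Fintype V] [DecidableEq V]

/-- the weight of `R` for the random subset of density `q` -/
noncomputable def wt (q : ℝ) (R : Finset V) : ℝ := q ^ #R * (1 - q) ^ #(univ \ R)

theorem wt_nonneg {q : ℝ} (h0 : 0 ≤ q) (h1 : q ≤ 1) (R : Finset V) : 0 ≤ wt q R := by
  unfold wt
  have : 0 ≤ 1 - q := by linarith
  positivity

theorem sum_wt (q : ℝ) (T : Finset V) :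
    ∑ R : Finset V, wt q R * (if T ⊆ R then 1 else 0) = q ^ #T := by
  have h := Finset.prod_add (fun _ : V => q) (fun i : V => if i ∈ T then (0 : ℝ) else 1 - q)
    (univ : Finset V)
  have h1 : ∏ i : V, (q + (if i ∈ T then (0 : ℝ) else 1 - q)) = q ^ #T := by
    have : ∀ i : V, (q + (if i ∈ T then (0 : ℝ) else 1 - q)) = if i ∈ T then q else 1 := by
      intro i
      split_ifs
      · ring
      · ring
    simp_rw [this]
    rw [Finset.prod_ite_mem, Finset.univ_inter, Finset.prod_const]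
  rw [h1, Finset.powerset_univ] at h
  rw [h]
  apply Finset.sum_congr rfl
  intro R _
  by_cases hTR : T ⊆ R
  · rw [if_pos hTR, mul_one]
    unfold wt
    rw [Finset.prod_const]
    congr 1
    rw [← Finset.prod_const]
    apply Finset.prod_congr rfl
    intro i hi
    rw [if_neg]
    intro hiT
    exact (Finset.mem_sdiff.mp hi).2 (hTR hiT)
  · rw [if_neg hTR, mul_zero]
    obtain ⟨i, hiT, hiR⟩ := Finset.not_subset.mp hTR
    have hz : ∏ j ∈ univ \ R, (if j ∈ T then (0 : ℝ) else 1 - q) = 0 :=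
      Finset.prod_eq_zero (Finset.mem_sdiff.mpr ⟨Finset.mem_univ i, hiR⟩) (if_pos hiT)
    rw [hz, mul_zero]

theorem sum_wt_one (q : ℝ) : ∑ R : Finset V, wt q R = 1 := by
  have := sum_wt q (∅ : Finset V)
  simpa using this

theorem sum_wt_card (q : ℝ) : ∑ R : Finset V, wt q R * (#R : ℝ) = Fintype.card V * q := by
  have h : ∀ R : Finset V, wt q R * (#R : ℝ) =
      ∑ v : V, wt q R * (if ({v} : Finset V) ⊆ R then 1 else 0) := by
    intro R
    rw [← Finset.mul_sum]
    congr 1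
    simp
  simp_rw [h]
  rw [Finset.sum_comm]
  simp_rw [sum_wt]
  simp

/-- the number of hits -/
noncomputable def hits (L : Finset V) (l : V → V) (R₁ R₂ : Finset V) : ℝ :=
  ∑ h ∈ L, (if ({h} : Finset V) ⊆ R₁ then 1 else 0) * (if ({l h} : Finset V) ⊆ R₂ then 1 else 0)

omit [Fintype V] in
theorem ind_mul_ind (T U R : Finset V) :
    ((if T ⊆ R then (1 : ℝ) else 0) * (if U ⊆ R then 1 else 0)) =
      if T ∪ U ⊆ R then 1 else 0 := by
  by_cases h1 : T ⊆ R
  · by_cases h2 : U ⊆ R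
    · rw [if_pos h1, if_pos h2, if_pos (Finset.union_subset h1 h2), mul_one]
    · rw [if_neg h2, if_neg (fun h => h2 (Finset.subset_union_right.trans h)), mul_zero]
  · rw [if_neg h1, if_neg (fun h => h1 (Finset.subset_union_left.trans h)), zero_mul]

theorem sum_hits (q : ℝ) (L : Finset V) (l : V → V) :
    ∑ R₁ : Finset V, ∑ R₂ : Finset V, wt q R₁ * wt q R₂ * hits L l R₁ R₂ = #L * q ^ 2 := by
  have h1 : ∀ R₁ R₂ : Finset V, wt q R₁ * wt q R₂ * hits L l R₁ R₂ =
      ∑ h ∈ L, (wt q R₁ * (if ({h} : Finset V) ⊆ R₁ then 1 else 0)) *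
        (wt q R₂ * (if ({l h} : Finset V) ⊆ R₂ then 1 else 0)) := by
    intro R₁ R₂
    unfold hits
    rw [Finset.mul_sum]
    apply Finset.sum_congr rfl
    intro h _
    ring
  simp_rw [h1]
  have h2 : ∀ R₁ : Finset V, ∑ R₂ : Finset V, ∑ h ∈ L,
      (wt q R₁ * (if ({h} : Finset V) ⊆ R₁ then 1 else 0)) *
        (wt q R₂ * (if ({l h} : Finset V) ⊆ R₂ then 1 else 0)) =
      ∑ h ∈ L, (wt q R₁ * (if ({h} : Finset V) ⊆ R₁ then 1 else 0)) * q := by
    intro R₁
    rw [Finset.sum_comm]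
    apply Finset.sum_congr rfl
    intro h _
    rw [← Finset.mul_sum, sum_wt, Finset.card_singleton, pow_one]
  simp_rw [h2]
  rw [Finset.sum_comm]
  have h3 : ∀ h ∈ L, ∑ R₁ : Finset V, (wt q R₁ * (if ({h} : Finset V) ⊆ R₁ then 1 else 0)) * q
      = q ^ 2 := by
    intro h _
    rw [← Finset.sum_mul, sum_wt, Finset.card_singleton, pow_one]
    ring
  rw [Finset.sum_congr rfl h3, Finset.sum_const, nsmul_eq_mul]

theorem sum_hits_sq (q : ℝ) (L : Finset V) (l : V → V) :
    ∑ R₁ : Finset V, ∑ R₂ : Finset V, wt q R₁ * wt q R₂ * (hits L l R₁ R₂) ^ 2 =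
      ∑ h ∈ L, ∑ h' ∈ L, q ^ #({h} ∪ {h'} : Finset V) * q ^ #({l h} ∪ {l h'} : Finset V) := by
  have h1 : ∀ R₁ R₂ : Finset V, wt q R₁ * wt q R₂ * (hits L l R₁ R₂) ^ 2 =
      ∑ h ∈ L, ∑ h' ∈ L, (wt q R₁ * (if ({h} ∪ {h'} : Finset V) ⊆ R₁ then 1 else 0)) *
        (wt q R₂ * (if ({l h} ∪ {l h'} : Finset V) ⊆ R₂ then 1 else 0)) := by
    intro R₁ R₂
    unfold hits
    rw [pow_two, Finset.sum_mul_sum, Finset.mul_sum]
    apply Finset.sum_congr rfl
    intro h _
    rw [Finset.mul_sum]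
    apply Finset.sum_congr rfl
    intro h' _
    rw [← ind_mul_ind, ← ind_mul_ind]
    ring
  simp_rw [h1]
  have h2 : ∀ R₁ : Finset V, ∑ R₂ : Finset V, ∑ h ∈ L, ∑ h' ∈ L,
      (wt q R₁ * (if ({h} ∪ {h'} : Finset V) ⊆ R₁ then 1 else 0)) *
        (wt q R₂ * (if ({l h} ∪ {l h'} : Finset V) ⊆ R₂ then 1 else 0)) =
      ∑ h ∈ L, ∑ h' ∈ L, (wt q R₁ * (if ({h} ∪ {h'} : Finset V) ⊆ R₁ then 1 else 0)) *
        q ^ #({l h} ∪ {l h'} : Finset V) := by
    intro R₁
    rw [Finset.sum_comm]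
    apply Finset.sum_congr rfl
    intro h _
    rw [Finset.sum_comm]
    apply Finset.sum_congr rfl
    intro h' _
    rw [← Finset.mul_sum, sum_wt]
  simp_rw [h2]
  rw [Finset.sum_comm]
  apply Finset.sum_congr rfl
  intro h _
  rw [Finset.sum_comm]
  apply Finset.sum_congr rfl
  intro h' _
  rw [← Finset.sum_mul, sum_wt]

/-- the probability that there is no hit is at most `2 / (m q²)` -/
theorem miss_le (q θ : ℝ) (h0 : 0 < q) (h1 : q ≤ 1) (L : Finset V) (l : V → V)
    (hdeg : ∀ v, (#(L.filter fun h => l h = v) : ℝ) ≤ θ) (hθ : θ * q ≤ 1) :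
    (∑ R₁ : Finset V, ∑ R₂ : Finset V, wt q R₁ * wt q R₂ *
      (if ∃ h ∈ L, h ∈ R₁ ∧ l h ∈ R₂ then 0 else 1)) * (#L * q ^ 2) ≤ 2 := by
  classical
  set m : ℝ := ((#L : ℕ) : ℝ) with hm
  have hm0 : 0 ≤ m := by rw [hm]; positivity
  -- pointwise
  have hpt : ∀ R₁ R₂ : Finset V, (if ∃ h ∈ L, h ∈ R₁ ∧ l h ∈ R₂ then (0 : ℝ) else 1) *
      (m * q ^ 2) ^ 2 ≤ (hits L l R₁ R₂ - m * q ^ 2) ^ 2 := by
    intro R₁ R₂
    split_ifs with h
    · rw [zero_mul]; positivity
    · have hz : hits L l R₁ R₂ = 0 := by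
        unfold hits
        apply Finset.sum_eq_zero
        intro a ha
        by_cases h2 : ({a} : Finset V) ⊆ R₁
        · by_cases h3 : ({l a} : Finset V) ⊆ R₂
          · exact absurd ⟨a, ha, Finset.singleton_subset_iff.mp h2,
              Finset.singleton_subset_iff.mp h3⟩ h
          · rw [if_neg h3, mul_zero]
        · rw [if_neg h2, zero_mul]
      rw [hz]
      nlinarith
  -- second moment
  have hsq : ∑ R₁ : Finset V, ∑ R₂ : Finset V, wt q R₁ * wt q R₂ * (hits L l R₁ R₂) ^ 2 ≤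
      m * q ^ 2 + m * θ * q ^ 3 + m ^ 2 * q ^ 4 := by
    rw [sum_hits_sq]
    have hterm : ∀ h ∈ L, ∀ h' ∈ L,
        q ^ #({h} ∪ {h'} : Finset V) * q ^ #({l h} ∪ {l h'} : Finset V) ≤
          (if h' = h then q ^ 2 else 0) + (if l h' = l h then q ^ 3 else 0) + q ^ 4 := by
      intro h _ h' _
      by_cases e : h' = h
      · subst e
        rw [if_pos rfl, if_pos rfl, Finset.union_idempotent, Finset.union_idempotent,
          Finset.card_singleton, Finset.card_singleton]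
        have : 0 < q ^ 3 := by positivity
        have : 0 < q ^ 4 := by positivity
        nlinarith
      · have c1 : #({h} ∪ {h'} : Finset V) = 2 := by
          rw [Finset.card_union_of_disjoint (by
            rw [Finset.disjoint_singleton]; exact fun e' => e e'.symm),
            Finset.card_singleton, Finset.card_singleton]
        rw [if_neg e, c1]
        by_cases e2 : l h' = l h
        · rw [if_pos e2, e2, Finset.union_idempotent, Finset.card_singleton]
          have : 0 < q ^ 4 := by positivity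
          nlinarith
        · have c2 : #({l h} ∪ {l h'} : Finset V) = 2 := by
            rw [Finset.card_union_of_disjoint (by
              rw [Finset.disjoint_singleton]; exact fun e' => e2 e'.symm),
              Finset.card_singleton, Finset.card_singleton]
          rw [if_neg e2, c2]
          nlinarith
    calc ∑ h ∈ L, ∑ h' ∈ L, q ^ #({h} ∪ {h'} : Finset V) * q ^ #({l h} ∪ {l h'} : Finset V)
        ≤ ∑ h ∈ L, ∑ h' ∈ L, ((if h' = h then q ^ 2 else 0) +
            (if l h' = l h then q ^ 3 else 0) + q ^ 4) :=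
          Finset.sum_le_sum fun h hh => Finset.sum_le_sum fun h' hh' => hterm h hh h' hh'
      _ ≤ ∑ h ∈ L, (q ^ 2 + θ * q ^ 3 + m * q ^ 4) := by
          apply Finset.sum_le_sum
          intro h hh
          rw [Finset.sum_add_distrib, Finset.sum_add_distrib]
          have a1 : ∑ h' ∈ L, (if h' = h then q ^ 2 else 0) = q ^ 2 := by
            rw [Finset.sum_ite_eq' L h, if_pos hh]
          have a2 : ∑ h' ∈ L, (if l h' = l h then q ^ 3 else 0) ≤ θ * q ^ 3 := by
            rw [← Finset.sum_filter, Finset.sum_const, nsmul_eq_mul]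
            exact mul_le_mul_of_nonneg_right (hdeg (l h)) (by positivity)
          have a3 : ∑ h' ∈ L, q ^ 4 = m * q ^ 4 := by
            rw [Finset.sum_const, nsmul_eq_mul]
          rw [a1, a3]
          linarith
      _ = m * q ^ 2 + m * θ * q ^ 3 + m ^ 2 * q ^ 4 := by
          rw [Finset.sum_const, nsmul_eq_mul]
          ring
  -- the variance
  have hvar : ∑ R₁ : Finset V, ∑ R₂ : Finset V, wt q R₁ * wt q R₂ *
      (hits L l R₁ R₂ - m * q ^ 2) ^ 2 ≤ 2 * (m * q ^ 2) := by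
    have e : ∀ R₁ R₂ : Finset V, wt q R₁ * wt q R₂ * (hits L l R₁ R₂ - m * q ^ 2) ^ 2 =
        wt q R₁ * wt q R₂ * (hits L l R₁ R₂) ^ 2 -
          (2 * (m * q ^ 2)) * (wt q R₁ * wt q R₂ * hits L l R₁ R₂) +
          (m * q ^ 2) ^ 2 * (wt q R₁ * wt q R₂) := by
      intro R₁ R₂; ring
    simp_rw [e, Finset.sum_add_distrib, Finset.sum_sub_distrib, ← Finset.mul_sum]
    rw [sum_hits]
    have e1 : ∑ R₁ : Finset V, wt q R₁ * ∑ R₂ : Finset V, wt q R₂ = 1 := by
      rw [sum_wt_one]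
      simp_rw [mul_one]
      exact sum_wt_one q
    have hsq' : ∑ R₁ : Finset V, ∑ R₂ : Finset V, wt q R₁ * wt q R₂ * (hits L l R₁ R₂) ^ 2 ≤
      m * q ^ 2 + m * θ * q ^ 3 + m ^ 2 * q ^ 4 := hsq
    rw [e1]
    have h5 : m * θ * q ^ 3 ≤ m * q ^ 2 := by
      have : m * q ^ 2 * (θ * q) ≤ m * q ^ 2 * 1 :=
        mul_le_mul_of_nonneg_left hθ (by positivity)
      nlinarith
    have h6 : (#L : ℝ) = m := hm.symm
    nlinarith
  -- conclusion
  have hfin : (∑ R₁ : Finset V, ∑ R₂ : Finset V, wt q R₁ * wt q R₂ *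
      (if ∃ h ∈ L, h ∈ R₁ ∧ l h ∈ R₂ then (0 : ℝ) else 1)) * (m * q ^ 2) ^ 2 ≤
      2 * (m * q ^ 2) := by
    refine le_trans ?_ hvar
    rw [Finset.sum_mul]
    apply Finset.sum_le_sum
    intro R₁ _
    rw [Finset.sum_mul]
    apply Finset.sum_le_sum
    intro R₂ _
    have := hpt R₁ R₂
    have hw : 0 ≤ wt q R₁ * wt q R₂ :=
      mul_nonneg (wt_nonneg h0.le h1 _) (wt_nonneg h0.le h1 _)
    calc _ = wt q R₁ * wt q R₂ * ((if ∃ h ∈ L, h ∈ R₁ ∧ l h ∈ R₂ then (0 : ℝ) else 1) *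
          (m * q ^ 2) ^ 2) := by ring
      _ ≤ _ := mul_le_mul_of_nonneg_left this hw
  rcases eq_or_lt_of_le hm0 with h | h
  · rw [← h]; norm_num
  · have hpos : 0 < m * q ^ 2 := by positivity
    by_contra hcon
    push Not at hcon
    nlinarith

end PoolBe0380
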