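import Pool.Agent.Lib.MP_be0380_co.Span

/-!
# The sums of the highest elements of two classes

`A` has no unique sum; `A` is divided into classes (the fibres of `κ`), each class lies in a
bounded span around its centre.  If `p` is large there are representatives `x g` of the classes
such that every sum `x g + x h` is also a sum of elements of two other classes.
-/

namespace PoolBe0380

open Finset

variable {p : ℕ}

/-- No element of `A + A` has a unique representation as a sum of an unordered pair. -/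
def NoUniqueSum (A : Finset (ZMod p)) : Prop :=
  ∀ a ∈ A, ∀ b ∈ A, ∃ c ∈ A, ∃ d ∈ A, c + d = a + b ∧ s(c, d) ≠ s(a, b)

theorem exists_reps [NeZero p] (hprime : p.Prime) (A : Finset (ZMod p)) (hA : NoUniqueSum A)
    (S : Finset (ZMod p)) (L : ℕ) (hL : 1 ≤ L) (κ : ZMod p → ZMod p)
    (hκ : ∀ a ∈ A, Ctrl S L (a - κ a))
    (hp : (16 * L) ^ #S < p) :
    ∃ x : ZMod p → ZMod p, (∀ g ∈ A.image κ, x g ∈ A ∧ κ (x g) = g) ∧
      ∀ g ∈ A.image κ, ∀ h ∈ A.image κ, ∃ k ∈ A.image κ, ∃ l ∈ A.image κ,
        ¬ ((k = g ∧ l = h) ∨ (k = h ∧ l = g)) ∧ Ctrl S (4 * L) (x g + x h - x k - x l) := by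
  classical
  have : Fact p.Prime := ⟨hprime⟩
  obtain ⟨t, ht0, ht⟩ := dirichlet S (16 * L) (by omega) hp
  -- the highest elements
  have hex : ∀ g : ZMod p, ∃ x : ZMod p, g ∈ A.image κ → (x ∈ A ∧ κ x = g ∧
      ∀ a ∈ A, κ a = g → (t * (a - g)).valMinAbs ≤ (t * (x - g)).valMinAbs) := by
    intro g
    by_cases hg : g ∈ A.image κ
    · have hne : (A.filter fun a => κ a = g).Nonempty := by
        obtain ⟨a, ha, hag⟩ := Finset.mem_image.mp hg
        exact ⟨a, Finset.mem_filter.mpr ⟨ha, hag⟩⟩
      obtain ⟨x, hx, hmax⟩ := Finset.exists_max_image (A.filter fun a => κ a = g)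
        (fun a => (t * (a - g)).valMinAbs) hne
      rw [Finset.mem_filter] at hx
      exact ⟨x, fun _ => ⟨hx.1, hx.2, fun a ha hag =>
        hmax a (Finset.mem_filter.mpr ⟨ha, hag⟩)⟩⟩
    · exact ⟨0, fun h => absurd h hg⟩
  choose x hx using hex
  -- the offsets are small
  have hsmall : ∀ a ∈ A, 16 * nrm (t * (a - κ a)) < p := by
    intro a ha
    have h1 := hκ a ha t ((p - 1) / (16 * L)) (by
      intro s hs
      have := ht s hs
      rw [Nat.le_div_iff_mul_le (by omega)]
      have h2 : nrm (t * s) * (16 * L) = 16 * L * nrm (t * s) := by ring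
      omega)
    have h3 : 16 * (L * ((p - 1) / (16 * L))) ≤ p - 1 := by
      have := Nat.div_mul_le_self (p - 1) (16 * L)
      calc 16 * (L * ((p - 1) / (16 * L))) = (p - 1) / (16 * L) * (16 * L) := by ring
        _ ≤ p - 1 := this
    have h4 : 0 < p := hprime.pos
    have h5 : 16 * nrm (t * (a - κ a)) ≤ 16 * (L * ((p - 1) / (16 * L))) :=
      Nat.mul_le_mul_left _ h1
    omega
  -- the key: the sum of two highest elements has no other representation in the same classes
  have key : ∀ g ∈ A.image κ, ∀ h ∈ A.image κ, ∀ c ∈ A, ∀ d ∈ A, κ c = g → κ d = h →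
      c + d = x g + x h → c = x g ∧ d = x h := by
    intro g hg h hh c hc d hd hcg hdh hsum
    obtain ⟨hxgA, hxg, hxgm⟩ := hx g hg
    obtain ⟨hxhA, hxh, hxhm⟩ := hx h hh
    have e1 : t * (c - g) + t * (d - h) = t * (x g - g) + t * (x h - h) := by
      have : c - g + (d - h) = x g - g + (x h - h) := by
        linear_combination hsum
      rw [← mul_add, ← mul_add, this]
    have s1 := hsmall c hc
    have s2 := hsmall d hd
    have s3 := hsmall (x g) hxgA
    have s4 := hsmall (x h) hxhA
    rw [hcg] at s1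
    rw [hdh] at s2
    rw [hxg] at s3
    rw [hxh] at s4
    have e2 := valMinAbs_add_eq e1 (by omega)
    have m1 := hxgm c hc hcg
    have m2 := hxhm d hd hdh
    have e3 : (t * (c - g)).valMinAbs = (t * (x g - g)).valMinAbs := by omega
    have e4 : (t * (d - h)).valMinAbs = (t * (x h - h)).valMinAbs := by omega
    have e5 := ZMod.injective_valMinAbs e3
    have e6 := ZMod.injective_valMinAbs e4
    have e7 := mul_left_cancel₀ ht0 e5
    have e8 := mul_left_cancel₀ ht0 e6
    constructor
    · exact sub_left_injective e7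
    · exact sub_left_injective e8
  refine ⟨x, fun g hg => ⟨(hx g hg).1, (hx g hg).2.1⟩, ?_⟩
  intro g hg h hh
  obtain ⟨c, hc, d, hd, hsum, hne⟩ := hA (x g) (hx g hg).1 (x h) (hx h hh).1
  refine ⟨κ c, Finset.mem_image_of_mem _ hc, κ d, Finset.mem_image_of_mem _ hd, ?_, ?_⟩
  · rintro (⟨h1, h2⟩ | ⟨h1, h2⟩)
    · obtain ⟨e1, e2⟩ := key g hg h hh c hc d hd h1 h2 hsum
      exact hne (by rw [e1, e2])
    · obtain ⟨e1, e2⟩ := key g hg h hh d hd c hc h2 h1 (by rw [add_comm]; exact hsum)
      exact hne (by rw [e1, e2, Sym2.eq_swap])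
  · have hck := hx (κ c) (Finset.mem_image_of_mem _ hc)
    have hdk := hx (κ d) (Finset.mem_image_of_mem _ hd)
    have o1 := hκ c hc
    have o2 := hκ d hd
    have o3 := hκ (x (κ c)) hck.1
    have o4 := hκ (x (κ d)) hdk.1
    rw [hck.2.1] at o3
    rw [hdk.2.1] at o4
    have o5 := ((o1.sub o3).add (o2.sub o4))
    have e : x g + x h - x (κ c) - x (κ d) =
        c - κ c - (x (κ c) - κ c) + (d - κ d - (x (κ d) - κ d)) := by
      linear_combination -hsum
    rw [e]
    exact o5.mono (by omega)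

end PoolBe0380
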