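import Mathlib

/-!
# Bounded spans in `ZMod p` and the Dirichlet step

`Ctrl S L u` says that `u` is controlled by `S` with constant `L`: every dilation which is small
on `S` is small on `u`, up to the factor `L`.
-/

namespace PoolBe0380

open Finset

variable {p : ℕ}

/-- the distance of the dilate `t * u` to zero -/
def nrm (u : ZMod p) : ℕ := u.valMinAbs.natAbs

/-- every dilation which is at most `δ` on `S` is at most `L * δ` on `u` -/
def Ctrl (S : Finset (ZMod p)) (L : ℕ) (u : ZMod p) : Prop :=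
  ∀ t : ZMod p, ∀ δ : ℕ, (∀ s ∈ S, nrm (t * s) ≤ δ) → nrm (t * u) ≤ L * δ

theorem nrm_add_le (a b : ZMod p) : nrm (a + b) ≤ nrm a + nrm b := by
  unfold nrm
  exact (ZMod.natAbs_valMinAbs_add_le a b).trans (Int.natAbs_add_le _ _)

theorem nrm_neg (a : ZMod p) : nrm (-a) = nrm a := ZMod.natAbs_valMinAbs_neg a

theorem nrm_zero : nrm (0 : ZMod p) = 0 := by
  unfold nrm; rw [ZMod.valMinAbs_zero]; rfl

theorem Ctrl.add {S : Finset (ZMod p)} {L M : ℕ} {u v : ZMod p} (hu : Ctrl S L u)
    (hv : Ctrl S M v) : Ctrl S (L + M) (u + v) := by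
  intro t δ h
  have h1 := hu t δ h
  have h2 := hv t δ h
  have h3 := nrm_add_le (t * u) (t * v)
  rw [← mul_add] at h3
  rw [add_mul]
  omega

theorem Ctrl.neg {S : Finset (ZMod p)} {L : ℕ} {u : ZMod p} (hu : Ctrl S L u) :
    Ctrl S L (-u) := by
  intro t δ h
  have h1 := hu t δ h
  rw [mul_neg, nrm_neg]
  exact h1

theorem Ctrl.sub {S : Finset (ZMod p)} {L M : ℕ} {u v : ZMod p} (hu : Ctrl S L u)
    (hv : Ctrl S M v) : Ctrl S (L + M) (u - v) := by
  rw [sub_eq_add_neg]
  exact hu.add hv.neg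

theorem Ctrl.mono {S : Finset (ZMod p)} {L M : ℕ} {u : ZMod p} (hu : Ctrl S L u)
    (h : L ≤ M) : Ctrl S M u := by
  intro t δ h'
  exact (hu t δ h').trans (Nat.mul_le_mul_right _ h)

theorem Ctrl.mono_set {S T : Finset (ZMod p)} {L : ℕ} {u : ZMod p} (hu : Ctrl S L u)
    (h : S ⊆ T) : Ctrl T L u := by
  intro t δ h'
  exact hu t δ fun s hs => h' s (h hs)

theorem Ctrl.zero (S : Finset (ZMod p)) (L : ℕ) : Ctrl S L (0 : ZMod p) := by
  intro t δ _
  rw [mul_zero, nrm_zero]
  exact Nat.zero_le _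

theorem Ctrl.self {S : Finset (ZMod p)} {s : ZMod p} (hs : s ∈ S) : Ctrl S 1 s := by
  intro t δ h
  rw [one_mul]
  exact h s hs

/-- Dirichlet's pigeonhole argument. -/
theorem dirichlet [NeZero p] (S : Finset (ZMod p)) (M : ℕ) (hM : 0 < M)
    (h : M ^ #S < p) : ∃ t : ZMod p, t ≠ 0 ∧ ∀ s ∈ S, M * nrm (t * s) < p := by
  classical
  have hp : 0 < p := Nat.pos_of_ne_zero (NeZero.ne p)
  -- the box map
  let f : ZMod p → (S → Fin M) := fun t s =>
    ⟨M * (t * s.1).val / p, by
      rw [Nat.div_lt_iff_lt_mul hp]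
      exact Nat.mul_lt_mul_of_pos_left (ZMod.val_lt _) hM⟩
  have hcard : Fintype.card (S → Fin M) < Fintype.card (ZMod p) := by
    rw [Fintype.card_fun, Fintype.card_fin, Fintype.card_coe, ZMod.card]
    exact h
  obtain ⟨a, b, hab, hf⟩ := Fintype.exists_ne_map_eq_of_card_lt f hcard
  refine ⟨a - b, sub_ne_zero.mpr hab, ?_⟩
  intro s hs
  have h1 : M * (a * s).val / p = M * (b * s).val / p := by
    have := congrFun hf ⟨s, hs⟩
    exact congrArg Fin.val this
  -- the difference of the two values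
  set x := (a * s).val with hx
  set y := (b * s).val with hy
  have hx1 := Nat.div_add_mod (M * x) p
  have hy1 := Nat.div_add_mod (M * y) p
  have hx2 := Nat.mod_lt (M * x) hp
  have hy2 := Nat.mod_lt (M * y) hp
  rw [h1] at hx1
  have hcast : (((x : ℤ) - (y : ℤ) : ℤ) : ZMod p) = (a - b) * s := by
    push_cast
    rw [hx, hy, ZMod.natCast_zmod_val, ZMod.natCast_zmod_val]
    ring
  have hle : nrm ((a - b) * s) ≤ ((x : ℤ) - y).natAbs := by
    unfold nrm
    apply ZMod.natAbs_min_of_le_div_two p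
    · rw [ZMod.coe_valMinAbs, hcast]
    · exact ZMod.natAbs_valMinAbs_le _
  have hlt : M * ((x : ℤ) - y).natAbs < p := by
    rcases le_total x y with hxy | hxy
    · have e : ((x : ℤ) - y).natAbs = y - x := by omega
      rw [e, Nat.mul_sub]
      omega
    · have e : ((x : ℤ) - y).natAbs = x - y := by omega
      rw [e, Nat.mul_sub]
      omega
  exact lt_of_le_of_lt (Nat.mul_le_mul_left _ hle) hlt

/-- Two sums of two small elements which agree in `ZMod p` agree as integers. -/
theorem valMinAbs_add_eq [NeZero p] {a b c d : ZMod p} (h : a + b = c + d)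
    (hs : nrm a + nrm b + nrm c + nrm d < p) :
    a.valMinAbs + b.valMinAbs = c.valMinAbs + d.valMinAbs := by
  have h1 : (((a.valMinAbs + b.valMinAbs) - (c.valMinAbs + d.valMinAbs) : ℤ) : ZMod p) = 0 := by
    push_cast
    rw [h, sub_self]
  rw [ZMod.intCast_zmod_eq_zero_iff_dvd] at h1
  unfold nrm at hs
  have h2 : (a.valMinAbs + b.valMinAbs) - (c.valMinAbs + d.valMinAbs) = 0 := by
    apply Int.eq_zero_of_abs_lt_dvd h1
    rw [Int.abs_eq_natAbs]
    have : ((a.valMinAbs + b.valMinAbs) - (c.valMinAbs + d.valMinAbs)).natAbs ≤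
        a.valMinAbs.natAbs + b.valMinAbs.natAbs + c.valMinAbs.natAbs + d.valMinAbs.natAbs := by
      omega
    exact_mod_cast lt_of_le_of_lt this hs
  omega

end PoolBe0380
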