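import Mathlib

/-!
# Sets in `ZMod p` without a unique sum with `O((log p)²)` elements
-/

namespace PoolBe0380.Upper

open Finset Pointwise

section group

variable {G : Type*} [AddCommGroup G] [DecidableEq G]

/-- every element of `M` is the midpoint of two other elements of `M` -/
def MidClosed (M : Finset G) : Prop := ∀ a ∈ M, ∃ d : G, d ≠ 0 ∧ a - d ∈ M ∧ a + d ∈ M

theorem mid_pair {M : Finset G} (hM : MidClosed M) (h2 : ∀ d : G, d + d = 0 → d = 0)
    {a b : G} (ha : a ∈ M) (hb : b ∈ M) :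
    ∃ c ∈ M + M, ∃ e ∈ M + M, c + e = (a + a) + (a + b) ∧ s(c, e) ≠ s(a + a, a + b) := by
  obtain ⟨d, hd, h1, h3⟩ := hM a ha
  by_cases hdab : d = a - b
  · refine ⟨(a - d) + b, add_mem_add h1 hb, (a + d) + a, add_mem_add h3 ha, by abel, ?_⟩
    intro h
    rw [Sym2.eq_iff] at h
    rcases h with ⟨h4, -⟩ | ⟨h4, -⟩
    · apply hd
      apply h2
      have h5 : d = b - a := by
        have : (a - d) + b - (a + a) = 0 := sub_eq_zero.mpr h4
        have h6 : b - a - d = 0 := by rw [← this]; abel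
        exact (sub_eq_zero.mp h6).symm
      nth_rewrite 1 [h5]
      rw [hdab]
      abel
    · apply hd
      have : (a - d) + b - (a + b) = 0 := sub_eq_zero.mpr h4
      have h6 : -d = 0 := by rw [← this]; abel
      exact neg_eq_zero.mp h6
  · refine ⟨(a - d) + a, add_mem_add h1 ha, (a + d) + b, add_mem_add h3 hb, by abel, ?_⟩
    intro h
    rw [Sym2.eq_iff] at h
    rcases h with ⟨h4, -⟩ | ⟨h4, -⟩
    · apply hd
      have : (a - d) + a - (a + a) = 0 := sub_eq_zero.mpr h4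
      have h6 : -d = 0 := by rw [← this]; abel
      exact neg_eq_zero.mp h6
    · apply hdab
      have : (a - d) + a - (a + b) = 0 := sub_eq_zero.mpr h4
      have h6 : a - b - d = 0 := by rw [← this]; abel
      exact (sub_eq_zero.mp h6).symm

theorem no_unique_sum {M : Finset G} (hM : MidClosed M) (h2 : ∀ d : G, d + d = 0 → d = 0)
    {x y : G} (hx : x ∈ M + M) (hy : y ∈ M + M) :
    ∃ c ∈ M + M, ∃ e ∈ M + M, c + e = x + y ∧ s(c, e) ≠ s(x, y) := by
  obtain ⟨a₁, ha₁, a₂, ha₂, rfl⟩ := mem_add.mp hx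
  obtain ⟨b₁, hb₁, b₂, hb₂, rfl⟩ := mem_add.mp hy
  by_cases h1 : s(a₁ + b₁, a₂ + b₂) = s(a₁ + a₂, b₁ + b₂)
  · by_cases h3 : s(a₁ + b₂, a₂ + b₁) = s(a₁ + a₂, b₁ + b₂)
    · rw [Sym2.eq_iff] at h1 h3
      have e1 : b₁ = a₂ ∨ a₁ = b₂ := by
        rcases h1 with ⟨h, -⟩ | ⟨h, -⟩
        · exact Or.inl (add_left_cancel h)
        · right
          rw [add_comm] at h
          exact add_left_cancel h
      have e2 : b₂ = a₂ ∨ a₁ = b₁ := by
        rcases h3 with ⟨h, -⟩ | ⟨h, -⟩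
        · exact Or.inl (add_left_cancel h)
        · exact Or.inr (add_right_cancel h)
      rcases e1 with rfl | rfl
      · rcases e2 with rfl | rfl
        · -- `b₂ = b₁ = a₂`
          obtain ⟨c, hc, e, he, h4, h5⟩ := mid_pair hM h2 hb₂ ha₁
          refine ⟨c, hc, e, he, by rw [h4]; abel, ?_⟩
          rw [add_comm a₁ b₂, Sym2.eq_swap (a := b₂ + a₁)]
          exact h5
        · obtain ⟨c, hc, e, he, h4, h5⟩ := mid_pair hM h2 ha₁ hb₂
          exact ⟨c, hc, e, he, h4, h5⟩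
      · rcases e2 with h | rfl
        · subst h
          obtain ⟨c, hc, e, he, h4, h5⟩ := mid_pair hM h2 ha₁ hb₁
          refine ⟨c, hc, e, he, by rw [h4]; abel, ?_⟩
          rw [add_comm b₁ a₁]
          exact h5
        · obtain ⟨c, hc, e, he, h4, h5⟩ := mid_pair hM h2 ha₁ ha₂
          refine ⟨c, hc, e, he, by rw [h4]; abel, ?_⟩
          rw [Sym2.eq_swap (a := a₁ + a₂)]
          exact h5
    · exact ⟨a₁ + b₂, add_mem_add ha₁ hb₂, a₂ + b₁, add_mem_add ha₂ hb₁, by abel, h3⟩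
  · exact ⟨a₁ + b₁, add_mem_add ha₁ hb₁, a₂ + b₂, add_mem_add ha₂ hb₂, by abel, h1⟩

end group

/-- the numbers `⌈p / 2^i⌉` -/
def hv (p i : ℕ) : ℕ := (p - 1) / 2 ^ i + 1

theorem hv_zero {p : ℕ} (hp : 1 ≤ p) : hv p 0 = p := by
  simp only [hv, pow_zero, Nat.div_one]; omega

theorem hv_succ (p i : ℕ) : 2 * hv p (i + 1) = hv p i ∨ 2 * hv p (i + 1) = hv p i + 1 := by
  have h : (p - 1) / 2 ^ (i + 1) = (p - 1) / 2 ^ i / 2 := by
    rw [pow_succ, Nat.div_div_eq_div_mul]
  simp only [hv, h]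
  omega

/-- the midpoint closed set -/
def mset (p : ℕ) : Finset (ZMod p) :=
  (range (Nat.log 2 (p - 1) + 2)).image (fun i => ((hv p i : ℕ) : ZMod p)) ∪
    (range (Nat.log 2 (p - 1) + 2)).image (fun i => -((hv p i : ℕ) : ZMod p))

theorem neg_mem_mset {p : ℕ} {x : ZMod p} (h : x ∈ mset p) : -x ∈ mset p := by
  simp only [mset, mem_union, mem_image, mem_range] at h ⊢
  rcases h with ⟨i, hi, rfl⟩ | ⟨i, hi, rfl⟩
  · exact Or.inr ⟨i, hi, rfl⟩
  · exact Or.inl ⟨i, hi, (neg_neg _).symm⟩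

theorem hv_mem {p i : ℕ} (hi : i < Nat.log 2 (p - 1) + 2) : ((hv p i : ℕ) : ZMod p) ∈ mset p := by
  simp only [mset, mem_union, mem_image, mem_range]
  exact Or.inl ⟨i, hi, rfl⟩

theorem zero_mem_mset {p : ℕ} (hp : 1 ≤ p) : (0 : ZMod p) ∈ mset p := by
  have h := hv_mem (p := p) (i := 0) (by omega)
  rwa [hv_zero hp, ZMod.natCast_self] at h

theorem one_mem_mset {p : ℕ} : (1 : ZMod p) ∈ mset p := by
  have h := hv_mem (p := p) (i := Nat.log 2 (p - 1) + 1) (by omega)
  have h1 : hv p (Nat.log 2 (p - 1) + 1) = 1 := by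
    have h2 : (p - 1) / 2 ^ (Nat.log 2 (p - 1) + 1) = 0 :=
      Nat.div_eq_of_lt (Nat.lt_pow_succ_log_self (by norm_num) _)
    simp only [hv, h2]
  rwa [h1, Nat.cast_one] at h

theorem two_le_hv {p i : ℕ} (hp : 2 ≤ p) (hi : i ≤ Nat.log 2 (p - 1)) : 2 ≤ hv p i := by
  have h1 : 2 ^ i ≤ p - 1 :=
    (Nat.pow_le_pow_right (by norm_num) hi).trans (Nat.pow_log_le_self 2 (by omega))
  have h2 : 1 ≤ (p - 1) / 2 ^ i := (Nat.one_le_div_iff (by positivity)).mpr h1
  simp only [hv]; omega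

theorem hv_le {p i : ℕ} (hi : 1 ≤ i) : hv p i ≤ (p - 1) / 2 + 1 := by
  have h : (p - 1) / 2 ^ i ≤ (p - 1) / 2 := by
    refine Nat.div_le_div_left ?_ (by norm_num)
    calc 2 = 2 ^ 1 := by norm_num
      _ ≤ 2 ^ i := Nat.pow_le_pow_right (by norm_num) hi
  simp only [hv]; omega

/-- the value `hv p i` is the midpoint of `hv p (i-1)` and `0` or `1` -/
theorem mid_hv {p : ℕ} (hp : 5 ≤ p) {i : ℕ} (hi : i < Nat.log 2 (p - 1) + 2) :
    ∃ d : ZMod p, d ≠ 0 ∧ ((hv p i : ℕ) : ZMod p) - d ∈ mset p ∧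
      ((hv p i : ℕ) : ZMod p) + d ∈ mset p := by
  have h10 : (1 : ZMod p) ≠ 0 := by
    intro h0
    have : ((1 : ℕ) : ZMod p) = 0 := by exact_mod_cast h0
    rw [ZMod.natCast_eq_zero_iff] at this
    have := Nat.le_of_dvd (by norm_num) this
    omega
  rcases Nat.eq_zero_or_pos i with rfl | hi0
  · rw [hv_zero (by omega), ZMod.natCast_self]
    refine ⟨1, h10, ?_, ?_⟩
    · rw [zero_sub]; exact neg_mem_mset one_mem_mset
    · rw [zero_add]; exact one_mem_mset
  obtain ⟨j, rfl⟩ : ∃ j, i = j + 1 := ⟨i - 1, by omega⟩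
  have hj : ((hv p j : ℕ) : ZMod p) ∈ mset p := hv_mem (by omega)
  -- the difference is not zero
  have hne : ∀ e : ℕ, e ≤ 1 → 2 * hv p (j + 1) = hv p j + e →
      ((hv p (j + 1) : ℕ) : ZMod p) - (e : ZMod p) ≠ 0 := by
    intro e he h h0
    have hpos : 1 ≤ hv p (j + 1) := Nat.le_add_left _ _
    have h2 : hv p (j + 1) ≤ (p - 1) / 2 + 1 := hv_le (p := p) (i := j + 1) (by omega)
    have h5 : 2 ≤ hv p j := two_le_hv (p := p) (i := j) (by omega) (by omega)
    generalize hv p (j + 1) = x at *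
    generalize hv p j = y at *
    have h1 : ((x - e : ℕ) : ZMod p) = 0 := by
      rw [Nat.cast_sub (by omega)]
      exact h0
    rw [ZMod.natCast_eq_zero_iff] at h1
    have h3 : x - e = 0 := Nat.eq_zero_of_dvd_of_lt h1 (by omega)
    omega
  have key : ∀ e : ℕ, e ≤ 1 → 2 * hv p (j + 1) = hv p j + e → (e : ZMod p) ∈ mset p →
      ∃ d : ZMod p, d ≠ 0 ∧ ((hv p (j + 1) : ℕ) : ZMod p) - d ∈ mset p ∧
      ((hv p (j + 1) : ℕ) : ZMod p) + d ∈ mset p := by
    intro e he h hmem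
    refine ⟨((hv p (j + 1) : ℕ) : ZMod p) - (e : ZMod p), hne e he h, ?_, ?_⟩
    · rw [sub_sub_cancel]; exact hmem
    · have h1 : ((2 * hv p (j + 1) : ℕ) : ZMod p) = ((hv p j + e : ℕ) : ZMod p) := by rw [h]
      push_cast at h1
      have h2 : ((hv p (j + 1) : ℕ) : ZMod p) + (((hv p (j + 1) : ℕ) : ZMod p) - (e : ZMod p)) =
          ((hv p j : ℕ) : ZMod p) := by linear_combination h1
      rw [h2]; exact hj
  rcases hv_succ p j with h | h
  · exact key 0 (by norm_num) (by omega) (by rw [Nat.cast_zero]; exact zero_mem_mset (by omega))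
  · exact key 1 le_rfl h (by rw [Nat.cast_one]; exact one_mem_mset)

theorem midClosed_mset {p : ℕ} (hp : 5 ≤ p) : MidClosed (mset p) := by
  intro a ha
  have ha' := ha
  simp only [mset, mem_union, mem_image, mem_range] at ha'
  rcases ha' with ⟨i, hi, rfl⟩ | ⟨i, hi, rfl⟩
  · exact mid_hv hp hi
  · obtain ⟨d, hd, h1, h2⟩ := mid_hv hp hi
    refine ⟨d, hd, ?_, ?_⟩
    · have h3 := neg_mem_mset h2
      have h4 : -((hv p i : ℕ) : ZMod p) - d = -(((hv p i : ℕ) : ZMod p) + d) := by ring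
      rw [h4]; exact h3
    · have h3 := neg_mem_mset h1
      have h4 : -((hv p i : ℕ) : ZMod p) + d = -(((hv p i : ℕ) : ZMod p) - d) := by ring
      rw [h4]; exact h3

theorem card_mset (p : ℕ) : #(mset p) ≤ 2 * (Nat.log 2 (p - 1) + 2) := by
  refine (card_union_le _ _).trans ?_
  have h1 := card_image_le (s := range (Nat.log 2 (p - 1) + 2))
    (f := fun i => ((hv p i : ℕ) : ZMod p))
  have h2 := card_image_le (s := range (Nat.log 2 (p - 1) + 2))
    (f := fun i => -((hv p i : ℕ) : ZMod p))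
  rw [card_range] at h1 h2
  omega

/-- the upper bound -/
theorem exists_set {p : ℕ} (hprime : p.Prime) (hp : 5 ≤ p) : ∃ A : Finset (ZMod p), 2 ≤ #A ∧
    (∀ a ∈ A, ∀ b ∈ A, ∃ c ∈ A, ∃ d ∈ A, c + d = a + b ∧ s(c, d) ≠ s(a, b)) ∧
    (#A : ℝ) ≤ 36 * (Real.log p) ^ 2 := by
  have : Fact p.Prime := ⟨hprime⟩
  have h2 : ∀ d : ZMod p, d + d = 0 → d = 0 := by
    intro d hd
    have h3 : (2 : ZMod p) * d = 0 := by rw [two_mul]; exact hd
    rcases mul_eq_zero.mp h3 with h4 | h4
    · exfalso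
      have : ((2 : ℕ) : ZMod p) = 0 := by exact_mod_cast h4
      rw [ZMod.natCast_eq_zero_iff] at this
      have := Nat.le_of_dvd (by norm_num) this
      omega
    · exact h4
  refine ⟨mset p + mset p, ?_, fun a ha b hb => no_unique_sum (midClosed_mset hp) h2 ha hb, ?_⟩
  · have h0 : (0 : ZMod p) ∈ mset p + mset p := by
      have := add_mem_add (zero_mem_mset (p := p) (by omega)) (zero_mem_mset (p := p) (by omega))
      rwa [add_zero] at this
    have h1 : (1 : ZMod p) ∈ mset p + mset p := by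
      have := add_mem_add (zero_mem_mset (p := p) (by omega)) (one_mem_mset (p := p))
      rwa [zero_add] at this
    have h3 : ({0, 1} : Finset (ZMod p)) ⊆ mset p + mset p := by
      intro x hx
      rw [mem_insert, mem_singleton] at hx
      rcases hx with rfl | rfl
      · exact h0
      · exact h1
    calc 2 = #({0, 1} : Finset (ZMod p)) := by
          rw [card_pair]
          exact zero_ne_one
      _ ≤ _ := card_le_card h3
  · have h3 : #(mset p + mset p) ≤ #(mset p) * #(mset p) := card_add_le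
    have h4 := card_mset p
    have hlog : (Nat.log 2 (p - 1) : ℝ) ≤ Real.log p / Real.log 2 := by
      have h5 : 2 ^ Nat.log 2 (p - 1) ≤ p := (Nat.pow_log_le_self 2 (by omega)).trans (by omega)
      have h6 : ((2 : ℝ) ^ Nat.log 2 (p - 1)) ≤ p := by exact_mod_cast h5
      rw [le_div_iff₀ (Real.log_pos (by norm_num)), ← Real.log_pow]
      exact Real.log_le_log (by positivity) h6
    have hL : (8 / 5 : ℝ) ≤ Real.log p := by
      have h7 : Real.exp (8 / 5) ≤ 5 := by
        have h8 := Real.exp_one_lt_d9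
        have h9 : Real.exp (8 / 5) = Real.exp 1 * Real.exp (3 / 5) := by
          rw [← Real.exp_add]; norm_num
        have h10 : Real.exp (3 / 5) ≤ 1.83 := by
          have h11 : Real.exp (3 / 5) ^ 5 = Real.exp 1 ^ 3 := by
            rw [← Real.exp_nat_mul, ← Real.exp_nat_mul]; norm_num
          by_contra hcon
          push Not at hcon
          have h12 : (1.83 : ℝ) ^ 5 < Real.exp (3 / 5) ^ 5 :=
            pow_lt_pow_left₀ hcon (by norm_num) (by norm_num)
          have h13 : Real.exp 1 ^ 3 < 2.7182818286 ^ 3 :=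
            pow_lt_pow_left₀ h8 (Real.exp_pos _).le (by norm_num)
          rw [h11] at h12
          norm_num at h12 h13
          linarith
        rw [h9]
        nlinarith [Real.exp_pos 1, Real.exp_pos (3 / 5 : ℝ)]
      rw [Real.le_log_iff_exp_le (by positivity)]
      refine h7.trans ?_
      exact_mod_cast hp
    have hlog2 : (0.6931471803 : ℝ) < Real.log 2 := Real.log_two_gt_d9
    have h5 : (Nat.log 2 (p - 1) : ℝ) ≤ 1.45 * Real.log p := by
      refine hlog.trans ?_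
      rw [div_le_iff₀ (Real.log_pos (by norm_num))]
      nlinarith
    have h6 : (#(mset p) : ℝ) ≤ 6 * Real.log p := by
      have h7 : (#(mset p) : ℝ) ≤ 2 * (Nat.log 2 (p - 1) + 2) := by exact_mod_cast h4
      linarith
    have h7 : (#(mset p + mset p) : ℝ) ≤ #(mset p) * #(mset p) := by exact_mod_cast h3
    have h8 : (0 : ℝ) ≤ #(mset p) := by positivity
    nlinarith

end PoolBe0380.Upper
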